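import Mathlib

/-!
# Geometry for the ellipses of a maximum spanning tree: the two segment lemmas
-/

namespace Pool.Agent.Helper72.Ell

open Real

/-- the constant `(1 + √3) / 2` -/
noncomputable def al : ℝ := (1 + Real.sqrt 3) / 2

lemma sqrt3_sq : Real.sqrt 3 * Real.sqrt 3 = 3 :=
  Real.mul_self_sqrt (by norm_num)

lemma sqrt3_gt : (1.732 : ℝ) < Real.sqrt 3 := by
  apply Real.lt_sqrt_of_sq_lt
  norm_num

lemma sqrt3_lt : Real.sqrt 3 < (1.7321 : ℝ) := by
  rw [Real.sqrt_lt' (by norm_num)]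
  norm_num

lemma sqrt3_eq : Real.sqrt 3 = 2 * al - 1 := by
  unfold al; ring

lemma al_sq : al * al = al + 1 / 2 := by
  have h := sqrt3_sq
  rw [sqrt3_eq] at h
  nlinarith [h]

lemma al_gt : (1.366 : ℝ) < al := by
  have := sqrt3_gt
  unfold al; linarith

lemma al_lt : al < (1.36605 : ℝ) := by
  have := sqrt3_lt
  unfold al; linarith

lemma al_pos : 0 < al := lt_trans (by norm_num) al_gt

variable {V : Type*} [NormedAddCommGroup V] [InnerProductSpace ℝ V]

/-- Stewart's identity. -/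
lemma stewart (x y w : V) (t : ℝ) :
    (1 - t) * dist x w ^ 2 + t * dist y w ^ 2 =
      dist ((1 - t) • x + t • y) w ^ 2 + t * (1 - t) * dist x y ^ 2 := by
  have e1 : (1 - t) • x + t • y - w = (1 - t) • (x - w) + t • (y - w) := by
    module
  have e2 : x - y = (x - w) - (y - w) := by abel
  rw [dist_eq_norm, dist_eq_norm, dist_eq_norm, dist_eq_norm, e1, e2]
  generalize x - w = a
  generalize y - w = b
  rw [norm_add_sq_real, norm_sub_sq_real, norm_smul, norm_smul, inner_smul_left,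
    inner_smul_right, mul_pow, mul_pow, Real.norm_eq_abs, Real.norm_eq_abs, sq_abs, sq_abs]
  simp only [conj_trivial]
  ring

lemma dist_left_seg (x y : V) {t : ℝ} (ht : 0 ≤ t) :
    dist ((1 - t) • x + t • y) x = t * dist x y := by
  have e1 : (1 - t) • x + t • y - x = t • (y - x) := by module
  rw [dist_eq_norm, e1, norm_smul, Real.norm_eq_abs, abs_of_nonneg ht, dist_comm x y,
    dist_eq_norm]

lemma dist_right_seg (x y : V) {t : ℝ} (ht : t ≤ 1) :
    dist ((1 - t) • x + t • y) y = (1 - t) * dist x y := by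
  have e1 : (1 - t) • x + t • y - y = (1 - t) • (x - y) := by module
  rw [dist_eq_norm, e1, norm_smul, Real.norm_eq_abs, abs_of_nonneg (by linarith),
    dist_eq_norm]

/-- **Lemma G** in parametrised form. -/
lemma lemmaG_aux (x y w : V) {t : ℝ} (h0 : 0 ≤ t) (h1 : t ≤ 1) {P L : ℝ}
    (hP : P = dist ((1 - t) • x + t • y) w) (hL : L = dist x y)
    (hx : al * dist x w < P + t * L) (hy : al * dist y w < P + (1 - t) * L)
    (hLx : al * L < P + t * L) (hLy : al * L < P + (1 - t) * L) : False := by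
  have hst := stewart x y w t
  rw [← hP, ← hL] at hst
  have hP0 : 0 ≤ P := hP ▸ dist_nonneg
  have hL0 : 0 ≤ L := hL ▸ dist_nonneg
  have hx0 : 0 ≤ dist x w := dist_nonneg
  have hy0 : 0 ≤ dist y w := dist_nonneg
  have hal := al_pos
  have halsq := al_sq
  have halgt := al_gt
  -- squares
  have hx2 : al * al * dist x w ^ 2 ≤ (P + t * L) ^ 2 := by
    have : (al * dist x w) ^ 2 ≤ (P + t * L) ^ 2 := by
      apply pow_le_pow_left₀ (by positivity) hx.le
    nlinarith [this]
  have hy2 : al * al * dist y w ^ 2 ≤ (P + (1 - t) * L) ^ 2 := by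
    have : (al * dist y w) ^ 2 ≤ (P + (1 - t) * L) ^ 2 := by
      apply pow_le_pow_left₀ (by positivity) hy.le
    nlinarith [this]
  have key : al * al * (P ^ 2 + t * (1 - t) * L ^ 2) ≤
      P ^ 2 + 4 * (t * (1 - t)) * P * L + t * (1 - t) * L ^ 2 := by
    rw [← hst]
    have e1 := mul_le_mul_of_nonneg_left hx2 (by linarith : (0 : ℝ) ≤ 1 - t)
    have e2 := mul_le_mul_of_nonneg_left hy2 h0
    nlinarith [e1, e2]
  set τ := t * (1 - t) with hτ
  have hτ0 : 0 ≤ τ := mul_nonneg h0 (by linarith)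
  have hτ1 : τ ≤ 1 / 4 := by nlinarith [sq_nonneg (t - 1 / 2)]
  rw [halsq] at key
  -- `(al - 1/2) * (P^2 + τ L^2) ≤ 4 τ P L`
  have key2 : (al - 1 / 2) * (P ^ 2 + τ * L ^ 2) ≤ 4 * τ * P * L := by nlinarith [key]
  have hPL : (al - 1 / 2) * L < P := by nlinarith
  have hPpos : 0 < P := lt_of_le_of_lt (mul_nonneg (by linarith) hL0) hPL
  -- hence `(al - 1/2) * (4 P^2 + L^2) ≤ 4 P L`
  have key3 : (al - 1 / 2) * (4 * P ^ 2 + L ^ 2) ≤ 4 * P * L := by
    by_cases hneg : 4 * P * L - (al - 1 / 2) * L ^ 2 < 0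
    · exfalso
      have e1 : τ * (4 * P * L - (al - 1 / 2) * L ^ 2) ≤ 0 :=
        mul_nonpos_of_nonneg_of_nonpos hτ0 hneg.le
      have e2 : 0 < (al - 1 / 2) * P ^ 2 := by
        apply mul_pos (by linarith) (by positivity)
      nlinarith [e1, e2, key2]
    · push Not at hneg
      have e1 := mul_le_mul_of_nonneg_right hτ1 hneg
      nlinarith [e1, key2]
  -- roots
  have e1 : 0 < P - (al - 1 / 2) * L := by linarith
  have hK : (al - 1 / 2) * (al - 1 / 2) = 3 / 4 := by linear_combination halsq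
  -- with s = 2 (al - 1/2): s/2*(4P²+L²) - 4PL = ...
  have e2 : 0 < 3 * P - (al - 1 / 2) * L := by linarith
  have e3 := mul_pos e1 e2
  have e4 : 0 < (P - (al - 1 / 2) * L) * (3 * P - (al - 1 / 2) * L) * (al - 1 / 2) :=
    mul_pos e3 (by linarith)
  have e5 : (P - (al - 1 / 2) * L) * (3 * P - (al - 1 / 2) * L) * (al - 1 / 2) =
      3 / 4 * ((al - 1 / 2) * (4 * P ^ 2 + L ^ 2) - 4 * P * L) := by
    linear_combination ((al - 1 / 2) * L ^ 2 - 4 * P * L) * hK
  linarith [e4, e5, key3]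

end Pool.Agent.Helper72.Ell
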