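import Pool.Agent.Helper72.Ell.Seg

namespace Pool.Agent.Helper72.Ell

open Real

variable {V : Type*} [NormedAddCommGroup V] [InnerProductSpace ℝ V]

/-- the ellipse function -/
noncomputable def ef (p q c : V) : ℝ := dist c p + dist c q - al * dist p q

lemma ef_cont (p q : V) : Continuous (ef p q) := by
  unfold ef; fun_prop

lemma dist_convex (p : V) {x y : V} {t : ℝ} (h0 : 0 ≤ t) (h1 : t ≤ 1) :
    dist ((1 - t) • x + t • y) p ≤ (1 - t) * dist x p + t * dist y p := by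
  have e1 : (1 - t) • x + t • y - p = (1 - t) • (x - p) + t • (y - p) := by module
  rw [dist_eq_norm, dist_eq_norm, dist_eq_norm, e1]
  calc ‖(1 - t) • (x - p) + t • (y - p)‖ ≤ ‖(1 - t) • (x - p)‖ + ‖t • (y - p)‖ :=
        norm_add_le _ _
    _ = (1 - t) * ‖x - p‖ + t * ‖y - p‖ := by
        rw [norm_smul, norm_smul, Real.norm_eq_abs, Real.norm_eq_abs,
          abs_of_nonneg h0, abs_of_nonneg (by linarith)]

lemma ef_convex (p q : V) {x y : V} {t : ℝ} (h0 : 0 ≤ t) (h1 : t ≤ 1) :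
    ef p q ((1 - t) • x + t • y) ≤ (1 - t) * ef p q x + t * ef p q y := by
  have := dist_convex p (x := x) (y := y) h0 h1
  have := dist_convex q (x := x) (y := y) h0 h1
  unfold ef
  linarith

/-- the (closed, convex) ellipse as a set -/
def El (p q : V) : Set V := {c | ef p q c ≤ 0}

lemma El_closed (p q : V) : IsClosed (El p q) :=
  isClosed_le (ef_cont p q) continuous_const

lemma El_convex (p q : V) : Convex ℝ (El p q) := by
  rw [convex_iff_segment_subset]
  intro x hx y hy z hz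
  obtain ⟨t, h0, h1, rfl⟩ := mem_seg hz
  have h := ef_convex p q (x := x) (y := y) h0 h1
  have e1 := mul_nonneg h0 (sub_nonneg.mpr hy : 0 ≤ 0 - ef p q y)
  have e2 := mul_nonneg (sub_nonneg.mpr h1) (sub_nonneg.mpr hx : 0 ≤ 0 - ef p q x)
  show ef p q _ ≤ 0
  linarith

lemma El_right (p q : V) : q ∈ El p q := by
  show ef p q q ≤ 0
  unfold ef
  rw [dist_self, dist_comm q p]
  have := al_gt
  have : 0 ≤ dist p q := dist_nonneg
  nlinarith

lemma El_left (p q : V) : p ∈ El p q := by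
  show ef p q p ≤ 0
  unfold ef
  rw [dist_self]
  have := al_gt
  have : 0 ≤ dist p q := dist_nonneg
  nlinarith

/-- Elementary replacement for the theorem of Berge on three convex sets. -/
lemma berge {f1 f2 f3 : V → ℝ} (c1 : Continuous f1) (c2 : Continuous f2) (c3 : Continuous f3)
    (k1 : ∀ x y : V, ∀ t : ℝ, 0 ≤ t → t ≤ 1 →
      f1 ((1 - t) • x + t • y) ≤ (1 - t) * f1 x + t * f1 y)
    (k2 : ∀ x y : V, ∀ t : ℝ, 0 ≤ t → t ≤ 1 →
      f2 ((1 - t) • x + t • y) ≤ (1 - t) * f2 x + t * f2 y)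
    (k3 : ∀ x y : V, ∀ t : ℝ, 0 ≤ t → t ≤ 1 →
      f3 ((1 - t) • x + t • y) ≤ (1 - t) * f3 x + t * f3 y)
    {x12 x13 x23 : V} (h12 : f1 x12 ≤ 0 ∧ f2 x12 ≤ 0) (h13 : f1 x13 ≤ 0 ∧ f3 x13 ≤ 0)
    (h23 : f2 x23 ≤ 0 ∧ f3 x23 ≤ 0)
    (hno : ∀ c, ¬ (f1 c ≤ 0 ∧ f2 c ≤ 0 ∧ f3 c ≤ 0)) :
    ∃ c ∈ convexHull ℝ {x12, x13, x23}, 0 < f1 c ∧ 0 < f2 c ∧ 0 < f3 c := by
  classical
  have hcomp : IsCompact (convexHull ℝ ({x12, x13, x23} : Set V)) := by
    apply Set.Finite.isCompact_convexHull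
    simp
  have hne : (convexHull ℝ ({x12, x13, x23} : Set V)).Nonempty :=
    ⟨x12, subset_convexHull ℝ _ (by simp)⟩
  obtain ⟨c, hc, hmin⟩ := hcomp.exists_isMinOn hne
    (f := fun x => max (f1 x) (max (f2 x) (f3 x))) (by fun_prop)
  have hmin' : ∀ x ∈ convexHull ℝ ({x12, x13, x23} : Set V),
      max (f1 c) (max (f2 c) (f3 c)) ≤ max (f1 x) (max (f2 x) (f3 x)) := fun x hx => hmin hx
  set m := max (f1 c) (max (f2 c) (f3 c)) with hm
  have hmpos : 0 < m := by
    by_contra hcon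
    push Not at hcon
    apply hno c
    exact ⟨le_trans (le_max_left _ _) hcon,
      le_trans (le_trans (le_max_left _ _) (le_max_right _ _)) hcon,
      le_trans (le_trans (le_max_right _ _) (le_max_right _ _)) hcon⟩
  have hf1m : f1 c ≤ m := le_max_left _ _
  have hf2m : f2 c ≤ m := le_trans (le_max_left _ _) (le_max_right _ _)
  have hf3m : f3 c ≤ m := le_trans (le_max_right _ _) (le_max_right _ _)
  have hconv := convex_convexHull ℝ ({x12, x13, x23} : Set V)
  -- general step: moving towards `x` (where `f`, `g ≤ 0`) cannot decrease the maximum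
  have step : ∀ (x : V) (f g h : V → ℝ),
      (∀ x y : V, ∀ t : ℝ, 0 ≤ t → t ≤ 1 → f ((1 - t) • x + t • y) ≤ (1 - t) * f x + t * f y) →
      (∀ x y : V, ∀ t : ℝ, 0 ≤ t → t ≤ 1 → g ((1 - t) • x + t • y) ≤ (1 - t) * g x + t * g y) →
      (∀ x y : V, ∀ t : ℝ, 0 ≤ t → t ≤ 1 → h ((1 - t) • x + t • y) ≤ (1 - t) * h x + t * h y) →
      x ∈ convexHull ℝ ({x12, x13, x23} : Set V) → f x ≤ 0 → g x ≤ 0 → f c ≤ m → g c ≤ m →
      h c ≤ 0 → ∃ z ∈ convexHull ℝ ({x12, x13, x23} : Set V), f z < m ∧ g z < m ∧ h z < m := by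
    intro x f g h kf kg kh hx hfx hgx hfc hgc hhc
    -- step length
    obtain ⟨t, ht0, ht1, htm⟩ : ∃ t : ℝ, 0 < t ∧ t ≤ 1 ∧ t * h x < m := by
      refine ⟨min 1 (m / (2 * (|h x| + 1))), ?_, min_le_left _ _, ?_⟩
      · apply lt_min one_pos
        positivity
      · have h1 : min 1 (m / (2 * (|h x| + 1))) * h x ≤
            min 1 (m / (2 * (|h x| + 1))) * |h x| := by
          apply mul_le_mul_of_nonneg_left (le_abs_self _)
          apply le_min zero_le_one
          positivity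
        have h2 : min 1 (m / (2 * (|h x| + 1))) * |h x| ≤
            (m / (2 * (|h x| + 1))) * |h x| :=
          mul_le_mul_of_nonneg_right (min_le_right _ _) (abs_nonneg _)
        have h3 : (m / (2 * (|h x| + 1))) * |h x| < m := by
          rw [div_mul_eq_mul_div, div_lt_iff₀ (by positivity)]
          have := abs_nonneg (h x)
          nlinarith
        linarith
    refine ⟨(1 - t) • c + t • x, ?_, ?_, ?_, ?_⟩
    · exact hconv hc hx (by linarith) ht0.le (by ring)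
    · have := kf c x t ht0.le ht1
      have := mul_le_mul_of_nonneg_left hfc (by linarith : (0 : ℝ) ≤ 1 - t)
      have := mul_nonneg ht0.le (by linarith : 0 ≤ -(f x))
      have := mul_pos ht0 hmpos
      linarith
    · have := kg c x t ht0.le ht1
      have := mul_le_mul_of_nonneg_left hgc (by linarith : (0 : ℝ) ≤ 1 - t)
      have := mul_nonneg ht0.le (by linarith : 0 ≤ -(g x))
      have := mul_pos ht0 hmpos
      linarith
    · have := kh c x t ht0.le ht1
      have := mul_nonneg (by linarith : (0 : ℝ) ≤ 1 - t) (by linarith : 0 ≤ -(h c))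
      linarith
  refine ⟨c, hc, ?_, ?_, ?_⟩
  · by_contra hcon
    push Not at hcon
    obtain ⟨z, hz, a, b, d⟩ := step x23 f2 f3 f1 k2 k3 k1
      (subset_convexHull ℝ _ (by simp)) h23.1 h23.2 hf2m hf3m hcon
    have := hmin' z hz
    rcases le_max_iff.mp this with h | h
    · linarith
    · rcases le_max_iff.mp h with h | h <;> linarith
  · by_contra hcon
    push Not at hcon
    obtain ⟨z, hz, a, b, d⟩ := step x13 f1 f3 f2 k1 k3 k2
      (subset_convexHull ℝ _ (by simp)) h13.1 h13.2 hf1m hf3m hcon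
    have := hmin' z hz
    rcases le_max_iff.mp this with h | h
    · linarith
    · rcases le_max_iff.mp h with h | h <;> linarith
  · by_contra hcon
    push Not at hcon
    obtain ⟨z, hz, a, b, d⟩ := step x12 f1 f2 f3 k1 k2 k3
      (subset_convexHull ℝ _ (by simp)) h12.1 h12.2 hf1m hf2m hcon
    have := hmin' z hz
    rcases le_max_iff.mp this with h | h
    · linarith
    · rcases le_max_iff.mp h with h | h <;> linarith

/-- Version for three ellipses. -/
lemma berge_ef {p1 q1 p2 q2 p3 q3 x12 x13 x23 : V}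
    (h12 : x12 ∈ El p1 q1 ∧ x12 ∈ El p2 q2) (h13 : x13 ∈ El p1 q1 ∧ x13 ∈ El p3 q3)
    (h23 : x23 ∈ El p2 q2 ∧ x23 ∈ El p3 q3)
    (hno : ∀ c, ¬ (ef p1 q1 c ≤ 0 ∧ ef p2 q2 c ≤ 0 ∧ ef p3 q3 c ≤ 0)) :
    ∃ c ∈ convexHull ℝ {x12, x13, x23}, 0 < ef p1 q1 c ∧ 0 < ef p2 q2 c ∧ 0 < ef p3 q3 c :=
  berge (ef_cont _ _) (ef_cont _ _) (ef_cont _ _)
    (fun _ _ _ h0 h1 => ef_convex _ _ h0 h1) (fun _ _ _ h0 h1 => ef_convex _ _ h0 h1)
    (fun _ _ _ h0 h1 => ef_convex _ _ h0 h1) h12 h13 h23 hno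

/-- On the segment between the two far ends every point is in one of the two ellipses. -/
lemma seg_cover {p1 q1 p2 q2 : V} (h1 : dist q1 p2 ≤ dist p1 q1) (h2 : dist q1 q2 ≤ dist p1 q1)
    (h3 : dist q2 p1 ≤ dist p2 q2) (h4 : dist q1 q2 ≤ dist p2 q2) {z : V}
    (hz : z ∈ segment ℝ q1 q2) : z ∈ El p1 q1 ∨ z ∈ El p2 q2 := by
  by_contra hcon
  push Not at hcon
  obtain ⟨b1, b2⟩ := hcon
  have b1' : al * dist p1 q1 < dist z p1 + dist z q1 := by
    have : ¬ ef p1 q1 z ≤ 0 := b1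
    unfold ef at this; linarith
  have b2' : al * dist p2 q2 < dist z p2 + dist z q2 := by
    have : ¬ ef p2 q2 z ≤ 0 := b2
    unfold ef at this; linarith
  obtain ⟨t, h0, h1t, rfl⟩ := mem_seg hz
  have hal := al_pos
  have m1 := mul_le_mul_of_nonneg_left h1 hal.le
  have m2 := mul_le_mul_of_nonneg_left h2 hal.le
  have m3 := mul_le_mul_of_nonneg_left h3 hal.le
  have m4 := mul_le_mul_of_nonneg_left h4 hal.le
  set z := (1 - t) • q1 + t • q2 with hzdef
  have d1 : dist z q1 = t * dist q1 q2 := dist_left_seg q1 q2 h0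
  have d2 : dist z q2 = (1 - t) * dist q1 q2 := dist_right_seg q1 q2 h1t
  rcases le_total (dist z p1) (dist z p2) with h | h
  · apply lemmaG_aux q1 q2 p2 h0 h1t rfl rfl <;> rw [← hzdef]
    · linarith
    · rw [dist_comm q2 p2]; linarith
    · linarith
    · linarith
  · apply lemmaG_aux q1 q2 p1 h0 h1t rfl rfl <;> rw [← hzdef]
    · rw [dist_comm q1 p1]; linarith
    · linarith
    · linarith
    · linarith

/-- **Pair lemma.** -/
lemma pair_seg {p1 q1 p2 q2 : V} (h1 : dist q1 p2 ≤ dist p1 q1) (h2 : dist q1 q2 ≤ dist p1 q1)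
    (h3 : dist q2 p1 ≤ dist p2 q2) (h4 : dist q1 q2 ≤ dist p2 q2) :
    ∃ z ∈ segment ℝ q1 q2, z ∈ El p1 q1 ∧ z ∈ El p2 q2 := by
  have hpre : IsPreconnected (segment ℝ q1 q2) := (convex_segment q1 q2).isPreconnected
  rw [isPreconnected_closed_iff] at hpre
  obtain ⟨z, hz, hz1, hz2⟩ := hpre (El p1 q1) (El p2 q2) (El_closed _ _) (El_closed _ _)
    (fun z hz => seg_cover h1 h2 h3 h4 hz)
    ⟨q1, left_mem_segment ℝ _ _, El_right _ _⟩ ⟨q2, right_mem_segment ℝ _ _, El_right _ _⟩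
  exact ⟨z, hz, hz1, hz2⟩

end Pool.Agent.Helper72.Ell
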