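import Pool.Agent.Helper72.Ell.PathNum

namespace Pool.Agent.Helper72.Ell

open Real

variable {V : Type*} [NormedAddCommGroup V] [InnerProductSpace ℝ V]

/-- `X` lies in the cone spanned by `-a` and `-b`. -/
def InCone (a b X : V) : Prop := ∃ x y : ℝ, 0 ≤ x ∧ 0 ≤ y ∧ X = -(x • a + y • b)

/-- **Cone lemma.** -/
lemma cone_lemma {P1 P3 M a1 a3 : V} {l m n x1 y1 x3 y3 s1 s3 : ℝ}
    (hl : 0 < l) (hm : 0 < m) (h : l • P1 + m • P3 + n • M = 0)
    (hx1 : 0 ≤ x1) (hy1 : 0 ≤ y1) (hx3 : 0 ≤ x3) (hy3 : 0 ≤ y3) (hs1 : 0 < s1) (hs3 : 0 < s3)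
    (h1 : x1 • P1 + y1 • M = -(s1 • a1)) (h3 : x3 • P3 + y3 • M = -(s3 • a3))
    (ha : 0 < (inner ℝ a1 a3)) : InCone a1 a3 M ∨ InCone a1 a3 P1 := by
  have ha1 : a1 ≠ 0 := by rintro rfl; simp at ha
  have ha3 : a3 ≠ 0 := by rintro rfl; simp at ha
  rcases eq_or_lt_of_le hx1 with hx1' | hx1'
  · -- x1 = 0
    left
    rw [← hx1', zero_smul, zero_add] at h1
    have hy1' : y1 ≠ 0 := by
      rintro rfl
      rw [zero_smul, eq_comm, neg_eq_zero, smul_eq_zero] at h1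
      rcases h1 with h1 | h1
      · linarith
      · exact ha1 h1
    have hy1p : 0 < y1 := lt_of_le_of_ne hy1 hy1'.symm
    refine ⟨s1 / y1, 0, by positivity, le_rfl, ?_⟩
    have : M = y1⁻¹ • (y1 • M) := by rw [smul_smul, inv_mul_cancel₀ hy1', one_smul]
    rw [this, h1, zero_smul, add_zero, smul_neg, smul_smul]
    congr 2; ring
  rcases eq_or_lt_of_le hx3 with hx3' | hx3'
  · left
    rw [← hx3', zero_smul, zero_add] at h3
    have hy3' : y3 ≠ 0 := by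
      rintro rfl
      rw [zero_smul, eq_comm, neg_eq_zero, smul_eq_zero] at h3
      rcases h3 with h3 | h3
      · linarith
      · exact ha3 h3
    have hy3p : 0 < y3 := lt_of_le_of_ne hy3 hy3'.symm
    refine ⟨0, s3 / y3, le_rfl, by positivity, ?_⟩
    have : M = y3⁻¹ • (y3 • M) := by rw [smul_smul, inv_mul_cancel₀ hy3', one_smul]
    rw [this, h3, zero_smul, zero_add, smul_neg, smul_smul]
    congr 2; ring
  -- both positive
  have hP1 : P1 = x1⁻¹ • (-(s1 • a1) - y1 • M) := by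
    rw [← h1, add_sub_cancel_right, smul_smul, inv_mul_cancel₀ hx1'.ne', one_smul]
  have hP3 : P3 = x3⁻¹ • (-(s3 • a3) - y3 • M) := by
    rw [← h3, add_sub_cancel_right, smul_smul, inv_mul_cancel₀ hx3'.ne', one_smul]
  set κ := l * y1 / x1 + m * y3 / x3 - n with hκ
  have key : (l * s1 / x1) • a1 + (m * s3 / x3) • a3 = -(κ • M) := by
    have e0 : l • P1 + m • P3 + n • M = -((l * s1 / x1) • a1 + (m * s3 / x3) • a3) - κ • M := by
      rw [hP1, hP3, hκ]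
      have e1 : l * s1 / x1 = l * s1 * x1⁻¹ := by ring
      have e2 : m * s3 / x3 = m * s3 * x3⁻¹ := by ring
      have e3 : l * y1 / x1 = l * y1 * x1⁻¹ := by ring
      have e4 : m * y3 / x3 = m * y3 * x3⁻¹ := by ring
      rw [e1, e2, e3, e4]
      module
    rw [h] at e0
    have e5 := sub_eq_zero.mp e0.symm
    rw [← e5, neg_neg]
  have hp1 : 0 < l * s1 / x1 := by positivity
  have hp3 : 0 < m * s3 / x3 := by positivity
  rcases lt_trichotomy κ 0 with hk | hk | hk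
  · -- `M` is a positive combination of `a1` and `a3`
    right
    have hM : M = (-κ)⁻¹ • ((l * s1 / x1) • a1 + (m * s3 / x3) • a3) := by
      rw [key, ← neg_smul, smul_smul, inv_mul_cancel₀ (by linarith), one_smul]
    refine ⟨x1⁻¹ * s1 + x1⁻¹ * y1 * ((-κ)⁻¹ * (l * s1 / x1)),
      x1⁻¹ * y1 * ((-κ)⁻¹ * (m * s3 / x3)), ?_, ?_, ?_⟩
    · have : 0 < -κ := by linarith
      positivity
    · have : 0 < -κ := by linarith
      positivity
    · rw [hP1]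
      nth_rewrite 1 [hM]
      module
  · exfalso
    rw [hk, zero_smul, neg_zero] at key
    have e1 : (inner ℝ a1 ((l * s1 / x1) • a1 + (m * s3 / x3) • a3)) = 0 := by rw [key, inner_zero_right]
    rw [inner_add_right, inner_smul_right, inner_smul_right] at e1
    have e2 : 0 ≤ (inner ℝ a1 a1) := real_inner_self_nonneg
    have e3 := mul_nonneg hp1.le e2
    have e4 := mul_pos hp3 ha
    linarith
  · left
    refine ⟨κ⁻¹ * (l * s1 / x1), κ⁻¹ * (m * s3 / x3), by positivity, by positivity, ?_⟩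
    have hM : M = κ⁻¹ • (κ • M) := by rw [smul_smul, inv_mul_cancel₀ hk.ne', one_smul]
    have e : κ • M = -((l * s1 / x1) • a1 + (m * s3 / x3) • a3) := by rw [key, neg_neg]
    rw [hM, e]
    module

/-- Angle inside a cone (acute): `X` in the cone of `-a`, `-b` is closer to `-b` than `-a` is. -/
lemma cone_angle {a b X : V} (h : InCone a b X) (hab : 0 ≤ (inner ℝ a b)) :
    ‖X‖ * (inner ℝ a b) ≤ -((inner ℝ X b)) * ‖a‖ := by
  obtain ⟨x, y, hx, hy, rfl⟩ := h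
  rw [norm_neg, inner_neg_left, neg_neg, inner_add_left, inner_smul_left, inner_smul_left]
  simp only [conj_trivial]
  have h1 : ‖x • a + y • b‖ ≤ x * ‖a‖ + y * ‖b‖ := by
    calc ‖x • a + y • b‖ ≤ ‖x • a‖ + ‖y • b‖ := norm_add_le _ _
      _ = x * ‖a‖ + y * ‖b‖ := by
        rw [norm_smul, norm_smul, Real.norm_eq_abs, Real.norm_eq_abs, abs_of_nonneg hx,
          abs_of_nonneg hy]
  have h2 : (inner ℝ a b) ≤ ‖a‖ * ‖b‖ := real_inner_le_norm a b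
  have h3 : (inner ℝ b b) = ‖b‖ ^ 2 := real_inner_self_eq_norm_sq b
  rw [h3]
  have h4 := mul_le_mul_of_nonneg_right h1 hab
  have h5 : y * ‖b‖ * (inner ℝ a b) ≤ y * ‖b‖ * (‖a‖ * ‖b‖) :=
    mul_le_mul_of_nonneg_left h2 (by positivity)
  nlinarith

lemma InCone.symm {a b X : V} (h : InCone a b X) : InCone b a X := by
  obtain ⟨x, y, hx, hy, rfl⟩ := h
  exact ⟨y, x, hy, hx, by rw [add_comm]⟩

/-- Angle inside a possibly obtuse cone. -/
lemma cone_angle' {u v g : V} {x y : ℝ} (hx : 0 ≤ x) (hy : 0 ≤ y) (hg : g = x • u + y • v)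
    (hu : u ≠ 0) : ‖g‖ * (inner ℝ u v) ≤ ‖u‖ * (inner ℝ v g) := by
  have hU : 0 < ‖u‖ := norm_pos_iff.mpr hu
  have huu : (inner ℝ u u) = ‖u‖ ^ 2 := real_inner_self_eq_norm_sq u
  have hvv : (inner ℝ v v) = ‖v‖ ^ 2 := real_inner_self_eq_norm_sq v
  have hvu : (inner ℝ v u) = (inner ℝ u v) := real_inner_comm u v
  have e1 : (inner ℝ v g) = x * (inner ℝ u v) + y * ‖v‖ ^ 2 := by
    rw [hg, inner_add_right, inner_smul_right, inner_smul_right, hvv, hvu]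
  have e2 : (inner ℝ u g) = x * ‖u‖ ^ 2 + y * (inner ℝ u v) := by
    rw [hg, inner_add_right, inner_smul_right, inner_smul_right, huu]
  have hcs : (inner ℝ u v) ≤ ‖u‖ * ‖v‖ := real_inner_le_norm u v
  have hcs2 : (inner ℝ u v) ^ 2 ≤ ‖u‖ ^ 2 * ‖v‖ ^ 2 := by
    have := abs_real_inner_le_norm u v
    have := pow_le_pow_left₀ (abs_nonneg _) this 2
    rw [sq_abs, mul_pow] at this
    exact this
  rw [e1]
  rcases le_total 0 (inner ℝ u v) with hp | hp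
  · have h1 : ‖g‖ ≤ x * ‖u‖ + y * ‖v‖ := by
      rw [hg]
      calc ‖x • u + y • v‖ ≤ ‖x • u‖ + ‖y • v‖ := norm_add_le _ _
        _ = x * ‖u‖ + y * ‖v‖ := by
          rw [norm_smul, norm_smul, Real.norm_eq_abs, Real.norm_eq_abs, abs_of_nonneg hx,
            abs_of_nonneg hy]
    have h2 := mul_le_mul_of_nonneg_right h1 hp
    have h3 : y * ‖v‖ * (inner ℝ u v) ≤ y * ‖v‖ * (‖u‖ * ‖v‖) :=
      mul_le_mul_of_nonneg_left hcs (by positivity)
    nlinarith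
  · have h1 : (inner ℝ u g) ≤ ‖u‖ * ‖g‖ := real_inner_le_norm u g
    rw [e2] at h1
    -- multiply by `-⟪u,v⟫ ≥ 0`
    have h2 := mul_le_mul_of_nonneg_right h1 (by linarith : 0 ≤ -((inner ℝ u v)))
    have h3 : 0 ≤ ‖u‖ * (‖u‖ * (x * (inner ℝ u v) + y * ‖v‖ ^ 2) - ‖g‖ * (inner ℝ u v)) := by
      have h4 := mul_le_mul_of_nonneg_left hcs2 hy
      nlinarith
    have h5 := nonneg_of_mul_nonneg_right h3 hU
    linarith

/-- far point `b` is not in the cone of two long vectors -/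
lemma b_not_cone {a1 a3 b : V} {l A : ℝ} (hA : 0 < A) (h1 : A ≤ ‖a1‖) (h3 : A = ‖a3‖)
    (hd1 : dist b a1 ≤ l) (hd3 : dist b a3 ≤ l) (hl : al * l < A + ‖b‖) (hb : b ≠ 0)
    (ha : 0 ≤ (inner ℝ a1 a3)) (h : InCone a1 a3 b) : False := by
  obtain ⟨x, y, hx, hy, hbe⟩ := h
  set r := ‖b‖ with hr
  have hr0 : 0 < r := norm_pos_iff.mpr hb
  have hal := al_pos
  have hl0 : 0 ≤ l := le_trans dist_nonneg hd1
  have hl2 : al * al * l ^ 2 ≤ (A + r) ^ 2 := by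
    have : (al * l) ^ 2 ≤ (A + r) ^ 2 := pow_le_pow_left₀ (by positivity) hl.le 2
    linarith [(by ring : (al * l) ^ 2 = al * al * l ^ 2)]
  -- `l² ≤ r² + A² + 0.15 r A`
  have hl3 : l ^ 2 ≤ r ^ 2 + A ^ 2 + 0.15 * (r * A) := by
    rw [al_sq] at hl2
    have hrA : 0 < r * A := by positivity
    have e1 : 1.866 * l ^ 2 ≤ (A + r) ^ 2 := by
      have : 1.866 * l ^ 2 ≤ (al + 1 / 2) * l ^ 2 :=
        mul_le_mul_of_nonneg_right (by linarith [al_gt]) (by positivity)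
      linarith
    nlinarith [sq_nonneg (A - r)]
  have i1 := inner_dist b a1
  have i3 := inner_dist b a3
  have q1 : dist b a1 ^ 2 ≤ l ^ 2 := pow_le_pow_left₀ dist_nonneg hd1 2
  have q3 : dist b a3 ^ 2 ≤ l ^ 2 := pow_le_pow_left₀ dist_nonneg hd3 2
  have qa : A ^ 2 ≤ ‖a1‖ ^ 2 := pow_le_pow_left₀ hA.le h1 2
  rw [← h3] at i3
  rw [← hr] at i1 i3
  have j1 : -((inner ℝ b a1)) ≤ 0.075 * (r * A) := by linarith
  have j3 : -((inner ℝ b a3)) ≤ 0.075 * (r * A) := by linarith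
  -- `r² = -x ⟪b,a1⟫ - y ⟪b,a3⟫`
  have k1 : r ^ 2 = x * (-((inner ℝ b a1))) + y * (-((inner ℝ b a3))) := by
    rw [hr, ← real_inner_self_eq_norm_sq]
    nth_rewrite 2 [hbe]
    rw [inner_neg_right, inner_add_right, inner_smul_right, inner_smul_right]
    ring
  have k2 : r ^ 2 ≤ 0.075 * (r * A) * (x + y) := by
    have m1 := mul_le_mul_of_nonneg_left j1 hx
    have m2 := mul_le_mul_of_nonneg_left j3 hy
    rw [k1]; linarith
  have k3 : r ≤ 0.075 * A * (x + y) := by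
    have : 0 ≤ r * (0.075 * A * (x + y) - r) := by nlinarith
    have := nonneg_of_mul_nonneg_right this hr0
    linarith
  have k4 : A ^ 2 * (x ^ 2 + y ^ 2) ≤ r ^ 2 := by
    have e : r ^ 2 = x ^ 2 * ‖a1‖ ^ 2 + 2 * (x * y) * (inner ℝ a1 a3) + y ^ 2 * ‖a3‖ ^ 2 := by
      rw [hr, hbe, norm_neg, norm_add_sq_real, norm_smul, norm_smul, inner_smul_left,
        inner_smul_right, mul_pow, mul_pow, Real.norm_eq_abs, Real.norm_eq_abs, sq_abs, sq_abs]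
      simp only [conj_trivial]
      ring
    rw [e, ← h3]
    have m1 := mul_le_mul_of_nonneg_left qa (sq_nonneg x)
    have m2 : 0 ≤ 2 * (x * y) * (inner ℝ a1 a3) := by positivity
    linarith
  have k5 : r ^ 2 ≤ (0.075 * A * (x + y)) ^ 2 := pow_le_pow_left₀ hr0.le k3 2
  have k6 : 0 < A ^ 2 * (x + y) ^ 2 := by
    have : 0 < (0.075 * A * (x + y)) ^ 2 := lt_of_lt_of_le (by positivity) k5
    nlinarith
  nlinarith [mul_nonneg (sq_nonneg A) (sq_nonneg (x - y))]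

/-- `u` is not in the cone: `A = ‖a3‖`, `‖a1‖ ≥ A`, `dist u a3 ≤ L`. -/
lemma u_not_cone {a1 a3 u : V} {L A : ℝ} (hL : 0 < L) (hA : 0 < A) (h1 : A ≤ ‖a1‖)
    (h3 : A = ‖a3‖) (hd : dist a1 a3 ≤ L) (hdu : dist u a3 ≤ L) (hU : al * L - A ≤ ‖u‖)
    (hAL : L < al * A) (hA2 : L ^ 2 ≤ 2 * A ^ 2) (h : InCone a1 a3 u) : False := by
  have i13 := inner_dist a1 a3
  have iu := inner_dist u a3
  have q1 : dist a1 a3 ^ 2 ≤ L ^ 2 := pow_le_pow_left₀ dist_nonneg hd 2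
  have q2 : dist u a3 ^ 2 ≤ L ^ 2 := pow_le_pow_left₀ dist_nonneg hdu 2
  have qa : A ^ 2 ≤ ‖a1‖ ^ 2 := pow_le_pow_left₀ hA.le h1 2
  rw [← h3] at i13 iu
  have ha : 0 ≤ (inner ℝ a1 a3) := by nlinarith
  have hc := cone_angle h ha
  have hU0 : 0 ≤ ‖u‖ := norm_nonneg _
  have hB : 0 < ‖a1‖ := lt_of_lt_of_le hA h1
  -- negative inner product
  have hneg : (inner ℝ u a3) ≤ 0 := by
    by_contra hcon
    push Not at hcon
    have : -((inner ℝ u a3)) * ‖a1‖ < 0 := by nlinarith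
    have : 0 ≤ ‖u‖ * (inner ℝ a1 a3) := mul_nonneg hU0 ha
    linarith
  have hUA2 : ‖u‖ ^ 2 + A ^ 2 ≤ L ^ 2 := by linarith
  refine num_ii hL hA hU hAL hA2 hUA2 ?_
  -- `U (B² + A² - L²) ≤ B (L² - U² - A²)`, then monotonicity in `B`
  set B := ‖a1‖ with hBdef
  set U := ‖u‖ with hUdef
  have e1 : U * (B ^ 2 + A ^ 2 - L ^ 2) ≤ B * (L ^ 2 - U ^ 2 - A ^ 2) := by
    have f1 : U * (B ^ 2 + A ^ 2 - L ^ 2) ≤ U * (2 * (inner ℝ a1 a3)) :=
      mul_le_mul_of_nonneg_left (by linarith) hU0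
    have f2 : B * (-(2 * (inner ℝ u a3))) ≤ B * (L ^ 2 - U ^ 2 - A ^ 2) :=
      mul_le_mul_of_nonneg_left (by linarith) hB.le
    linarith
  -- `B U (2A² - L²) ≤ B A (L² - U² - A²)`
  have e2 : 0 ≤ B * (A * (L ^ 2 - U ^ 2 - A ^ 2) - U * (2 * A ^ 2 - L ^ 2)) := by
    have f1 := mul_le_mul_of_nonneg_left e1 hA.le
    have f2 : 0 ≤ (B - A) * (U * (A * B - A ^ 2 + L ^ 2)) := by
      apply mul_nonneg (by linarith)
      apply mul_nonneg hU0
      nlinarith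
    nlinarith
  have e3 := nonneg_of_mul_nonneg_right e2 hB
  linarith

/-- `v` is not in the cone: `A = ‖a3‖`, `‖a1‖ ≥ A`, `dist v a1 ≤ L`. -/
lemma v_not_cone {a1 a3 u : V} {L A : ℝ} (hL : 0 < L) (hA : 0 < A) (h1 : A ≤ ‖a1‖)
    (h3 : A = ‖a3‖) (hd : dist a1 a3 ≤ L) (hdu : dist u a1 ≤ L) (hU : al * L - A ≤ ‖u‖)
    (hAL : L < al * A) (hA2 : L ^ 2 ≤ 2 * A ^ 2) (h : InCone a1 a3 u) : False := by
  have i13 := inner_dist a1 a3
  have iu := inner_dist u a1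
  have q1 : dist a1 a3 ^ 2 ≤ L ^ 2 := pow_le_pow_left₀ dist_nonneg hd 2
  have q2 : dist u a1 ^ 2 ≤ L ^ 2 := pow_le_pow_left₀ dist_nonneg hdu 2
  have qa : A ^ 2 ≤ ‖a1‖ ^ 2 := pow_le_pow_left₀ hA.le h1 2
  rw [← h3] at i13
  have ha : 0 ≤ (inner ℝ a1 a3) := by nlinarith
  have hc := cone_angle h.symm (by rw [real_inner_comm]; exact ha)
  rw [← h3, real_inner_comm] at hc
  have hU0 : 0 ≤ ‖u‖ := norm_nonneg _
  have hneg : (inner ℝ u a1) ≤ 0 := by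
    by_contra hcon
    push Not at hcon
    have : -((inner ℝ u a1)) * A < 0 := by nlinarith
    have : 0 ≤ ‖u‖ * (inner ℝ a1 a3) := mul_nonneg hU0 ha
    linarith
  have hUA2 : ‖u‖ ^ 2 + A ^ 2 ≤ L ^ 2 := by linarith
  refine num_ii hL hA hU hAL hA2 hUA2 ?_
  have f1 : ‖u‖ * (2 * A ^ 2 - L ^ 2) ≤ ‖u‖ * (2 * (inner ℝ a1 a3)) :=
    mul_le_mul_of_nonneg_left (by linarith) hU0
  have f2 : A * (-(2 * (inner ℝ u a1))) ≤ A * (L ^ 2 - ‖u‖ ^ 2 - A ^ 2) :=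
    mul_le_mul_of_nonneg_left (by linarith) hA.le
  linarith

/-- Case (D): both `-a1` and `-a3` in the cone of `u` and `v`. -/
lemma case_D {a1 a3 u v : V} {L A x1 y1 x3 y3 s1 s3 : ℝ} (hL : 0 < L) (hA : 0.7886 * L ≤ A)
    (h1 : A ≤ ‖a1‖) (h3 : A = ‖a3‖) (hUA : ‖u‖ ≤ A) (hWA : ‖v‖ ≤ A)
    (huv : dist u v = L) (hUW : al * L < ‖u‖ + ‖v‖)
    (hd1 : dist v a1 ≤ L) (hd3 : dist u a3 ≤ L) (hu : u ≠ 0) (hv : v ≠ 0)
    (hx1 : 0 ≤ x1) (hy1 : 0 ≤ y1) (hx3 : 0 ≤ x3) (hy3 : 0 ≤ y3) (hs1 : 0 < s1) (hs3 : 0 < s3)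
    (e1 : x1 • u + y1 • v = -(s1 • a1)) (e3 : x3 • u + y3 • v = -(s3 • a3)) : False := by
  have hApos : 0 < A := by nlinarith
  have g1 : -a1 = (x1 / s1) • u + (y1 / s1) • v := by
    have : -a1 = s1⁻¹ • (-(s1 • a1)) := by
      rw [smul_neg, smul_smul, inv_mul_cancel₀ hs1.ne', one_smul]
    rw [this, ← e1, smul_add, smul_smul, smul_smul]
    congr 2 <;> ring
  have g3 : -a3 = (y3 / s3) • v + (x3 / s3) • u := by
    have : -a3 = s3⁻¹ • (-(s3 • a3)) := by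
      rw [smul_neg, smul_smul, inv_mul_cancel₀ hs3.ne', one_smul]
    rw [this, ← e3, add_comm (x3 • u), smul_add, smul_smul, smul_smul]
    congr 2 <;> ring
  have c1 := cone_angle' (by positivity) (by positivity) g1 hu
  have c3 := cone_angle' (by positivity) (by positivity) g3 hv
  rw [norm_neg, inner_neg_right] at c1 c3
  rw [← h3, real_inner_comm] at c3
  have i1 := inner_dist v a1
  have i3 := inner_dist u a3
  have iuv := inner_dist u v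
  have q1 : dist v a1 ^ 2 ≤ L ^ 2 := pow_le_pow_left₀ dist_nonneg hd1 2
  have q3 : dist u a3 ^ 2 ≤ L ^ 2 := pow_le_pow_left₀ dist_nonneg hd3 2
  rw [huv] at iuv
  rw [← h3] at i3
  have hU0 : 0 ≤ ‖u‖ := norm_nonneg _
  have hW0 : 0 ≤ ‖v‖ := norm_nonneg _
  set B := ‖a1‖ with hB
  set U := ‖u‖ with hU
  set W := ‖v‖ with hW
  have hBpos : 0 < B := lt_of_lt_of_le hApos h1
  -- first inequality
  have k1 : U * (W ^ 2 + B ^ 2 - L ^ 2) ≤ B * (L ^ 2 - U ^ 2 - W ^ 2) := by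
    have f1 : U * (W ^ 2 + B ^ 2 - L ^ 2) ≤ U * (2 * (inner ℝ v a1)) :=
      mul_le_mul_of_nonneg_left (by linarith) hU0
    have f2 : B * (2 * (inner ℝ u v)) = B * (U ^ 2 + W ^ 2 - L ^ 2) := by rw [iuv]
    linarith
  have k1' : U * (W ^ 2 + A ^ 2 - L ^ 2) ≤ A * (L ^ 2 - U ^ 2 - W ^ 2) := by
    have e2 : 0 ≤ B * (A * (L ^ 2 - U ^ 2 - W ^ 2) - U * (W ^ 2 + A ^ 2 - L ^ 2)) := by
      have f1 := mul_le_mul_of_nonneg_left k1 hApos.le
      have f2 : 0 ≤ (B - A) * (U * (A * B - W ^ 2 + L ^ 2)) := by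
        apply mul_nonneg (by linarith)
        apply mul_nonneg hU0
        have : W ^ 2 ≤ A ^ 2 := pow_le_pow_left₀ hW0 hWA 2
        nlinarith
      nlinarith
    have e3 := nonneg_of_mul_nonneg_right e2 hBpos
    linarith
  have k3 : W * (U ^ 2 + A ^ 2 - L ^ 2) ≤ A * (L ^ 2 - U ^ 2 - W ^ 2) := by
    have f1 : W * (U ^ 2 + A ^ 2 - L ^ 2) ≤ W * (2 * (inner ℝ u a3)) :=
      mul_le_mul_of_nonneg_left (by linarith) hW0
    have f2 : A * (2 * (inner ℝ u v)) = A * (U ^ 2 + W ^ 2 - L ^ 2) := by rw [iuv]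
    linarith
  exact num_D hL hA hUA hWA hUW k1' k3

end Pool.Agent.Helper72.Ell
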