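import Pool.Agent.Helper72.Ell.PathCore

namespace Pool.Agent.Helper72.Ell

open Real

variable {V : Type*} [NormedAddCommGroup V] [InnerProductSpace ℝ V]

lemma zero_notMem_hull {E : Set V} (k : Convex ℝ E) (n : (0 : V) ∉ E) :
    (0 : V) ∉ ConvexCone.hull ℝ E := by
  rw [ConvexCone.mem_hull_of_convex k]
  rintro ⟨c, hc, y, hy, h⟩
  rcases smul_eq_zero.mp h with h | h
  · exact hc.ne' h
  · exact n (h ▸ hy)

lemma mem_hull_smul {E : Set V} (k : Convex ℝ E) {x : V} (hx : x ∈ E) {r : ℝ} (hr : 0 < r) :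
    r • x ∈ ConvexCone.hull ℝ E := by
  rw [ConvexCone.mem_hull_of_convex k]
  exact ⟨r, hr, x, hx, rfl⟩

/-- **Splitting lemma**: the origin, which lies in the triangle of the three pairwise
intersection points but in none of the convex sets, lies in one of two triangles. -/
lemma split (hV : Module.finrank ℝ V = 2) {E2 E3 : Set V} (k2 : Convex ℝ E2) (k3 : Convex ℝ E3)
    (n2 : (0 : V) ∉ E2) (n3 : (0 : V) ∉ E3) {b1 u v b3 x12 x13 x23 : V}
    (s12 : x12 ∈ segment ℝ b1 v) (s13 : x13 ∈ segment ℝ b1 b3) (s23 : x23 ∈ segment ℝ u b3)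
    (m12 : x12 ∈ E2) (m23 : x23 ∈ E2) (m13 : x13 ∈ E3) (m23' : x23 ∈ E3) (mb : b3 ∈ E3)
    (mu : u ∈ E2) (mv : v ∈ E2) {α β γ : ℝ} (hα : 0 ≤ α) (hβ : 0 ≤ β) (hγ : 0 ≤ γ)
    (hsum : α + β + γ = 1) (h : α • x12 + β • x13 + γ • x23 = 0) :
    (∃ l m n : ℝ, 0 ≤ l ∧ 0 ≤ m ∧ 0 ≤ n ∧ l + m + n = 1 ∧ l • b1 + m • v + n • b3 = 0) ∨
    (∃ l m n : ℝ, 0 ≤ l ∧ 0 ≤ m ∧ 0 ≤ n ∧ l + m + n = 1 ∧ l • u + m • v + n • b3 = 0) := by
  by_cases h0 : (0 : V) ∈ convexHull ℝ ({b1, v, b3} : Set V)
  · left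
    obtain ⟨l, m, n, hl, hm, hn, hs, hz⟩ := mem_hull3 h0
    simp only [sub_zero] at hz
    exact ⟨l, m, n, hl, hm, hn, hs, hz⟩
  right
  have hcomp : IsCompact (convexHull ℝ ({b1, v, b3} : Set V)) := by
    apply Set.Finite.isCompact_convexHull
    simp
  have hclosed : IsClosed (convexHull ℝ ({b1, v, b3} : Set V)) := hcomp.isClosed
  obtain ⟨f, a, ha0, ha⟩ := geometric_hahn_banach_point_closed (convex_convexHull ℝ _) hclosed h0
  rw [map_zero] at ha0
  have fb1 : 0 < f b1 := lt_trans ha0 (ha _ (subset_convexHull ℝ _ (by simp)))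
  have fv : 0 < f v := lt_trans ha0 (ha _ (subset_convexHull ℝ _ (by simp)))
  have fb3 : 0 < f b3 := lt_trans ha0 (ha _ (subset_convexHull ℝ _ (by simp)))
  have fseg : ∀ {x y z : V}, 0 < f x → 0 < f y → z ∈ segment ℝ x y → 0 < f z := by
    rintro x y z hx hy ⟨a, b, ha, hb, hab, rfl⟩
    rw [map_add, map_smul, map_smul, smul_eq_mul, smul_eq_mul]
    rcases eq_or_lt_of_le ha with ha' | ha'
    · rw [← ha'] at hab ⊢
      have : b = 1 := by linarith
      rw [this]; linarith
    · have := mul_pos ha' hx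
      have := mul_nonneg hb hy.le
      linarith
  have f12 : 0 < f x12 := fseg fb1 fv s12
  have f13 : 0 < f x13 := fseg fb1 fb3 s13
  have hf : α * f x12 + β * f x13 + γ * f x23 = 0 := by
    have := congrArg f h
    rwa [map_add, map_add, map_smul, map_smul, map_smul, map_zero] at this
  -- not both `α`, `β` vanish
  have hαβ : 0 < α + β := by
    rcases lt_or_eq_of_le (add_nonneg hα hβ) with h1 | h1
    · exact h1
    · exfalso
      have ha' : α = 0 := by linarith
      have hb' : β = 0 := by linarith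
      have hg' : γ = 1 := by linarith
      rw [ha', hb', hg'] at h
      simp only [zero_smul, one_smul, zero_add] at h
      exact n2 (h ▸ m23)
  have hpos : 0 < α * f x12 + β * f x13 := by
    rcases eq_or_lt_of_le hα with h1 | h1
    · rw [← h1] at hαβ ⊢
      have : 0 < β := by linarith
      have := mul_pos this f13
      linarith
    · have := mul_pos h1 f12
      have := mul_nonneg hβ f13.le
      linarith
  have f23 : f x23 < 0 := by
    by_contra hcon
    push Not at hcon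
    have := mul_nonneg hγ hcon
    linarith
  -- `x23` on `[u, b3]`
  obtain ⟨t, t0, t1, ht⟩ := mem_seg s23
  have fu : f u < 0 := by
    by_contra hcon
    push Not at hcon
    have e : f x23 = (1 - t) * f u + t * f b3 := by
      rw [ht, map_add, map_smul, map_smul]; rfl
    have := mul_nonneg (by linarith : 0 ≤ 1 - t) hcon
    have := mul_nonneg t0 fb3.le
    linarith
  have N2 := zero_notMem_hull k2 n2
  have N3 := zero_notMem_hull k3 n3
  -- the four points of the line
  set p1 := (-(f x23)) • x12 + (f x12) • x23 with hp1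
  set p2 := (-(f x23)) • x13 + (f x13) • x23 with hp2
  set y1 := (f v) • u + (-(f u)) • v with hy1
  set y2 := (f b3) • x23 + (-(f x23)) • b3 with hy2
  have P1 : p1 ∈ ConvexCone.hull ℝ E2 :=
    (ConvexCone.hull ℝ E2).add_mem (mem_hull_smul k2 m12 (by linarith)) (mem_hull_smul k2 m23 f12)
  have P2 : p2 ∈ ConvexCone.hull ℝ E3 :=
    (ConvexCone.hull ℝ E3).add_mem (mem_hull_smul k3 m13 (by linarith)) (mem_hull_smul k3 m23' f13)
  have Y1 : y1 ∈ ConvexCone.hull ℝ E2 :=
    (ConvexCone.hull ℝ E2).add_mem (mem_hull_smul k2 mu fv) (mem_hull_smul k2 mv (by linarith))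
  have Y2 : y2 ∈ ConvexCone.hull ℝ E3 :=
    (ConvexCone.hull ℝ E3).add_mem (mem_hull_smul k3 m23' fb3) (mem_hull_smul k3 mb (by linarith))
  have fp1 : f p1 = 0 := by
    rw [hp1, map_add, map_smul, map_smul, smul_eq_mul, smul_eq_mul]; ring
  have fy1 : f y1 = 0 := by
    rw [hy1, map_add, map_smul, map_smul, smul_eq_mul, smul_eq_mul]; ring
  have fy2 : f y2 = 0 := by
    rw [hy2, map_add, map_smul, map_smul, smul_eq_mul, smul_eq_mul]; ring
  have hrel : α • p1 + β • p2 = 0 := by
    have e1 : α • p1 + β • p2 = (-(f x23)) • (α • x12 + β • x13 + γ • x23) +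
        (α * f x12 + β * f x13 + γ * f x23) • x23 := by
      rw [hp1, hp2]; module
    rw [e1, h, hf, smul_zero, zero_smul, add_zero]
  have p1ne : p1 ≠ 0 := fun hz => N2 (hz ▸ P1)
  have p2ne : p2 ≠ 0 := fun hz => N3 (hz ▸ P2)
  have αpos : 0 < α := by
    rcases lt_or_eq_of_le hα with h1 | h1
    · exact h1
    · exfalso
      rw [← h1, zero_smul, zero_add, smul_eq_zero] at hrel
      rcases hrel with h2 | h2
      · rw [← h1, h2] at hαβ; linarith
      · exact p2ne h2
  have βpos : 0 < β := by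
    rcases lt_or_eq_of_le hβ with h1 | h1
    · exact h1
    · exfalso
      rw [← h1, zero_smul, add_zero, smul_eq_zero] at hrel
      rcases hrel with h2 | h2
      · rw [← h1, h2] at hαβ; linarith
      · exact p1ne h2
  -- the kernel of `f` is a line
  have hfin : FiniteDimensional ℝ V := FiniteDimensional.of_finrank_pos (by rw [hV]; norm_num)
  have line : ∀ y : V, f y = 0 → ∃ k : ℝ, y = k • p1 := by
    intro y hy
    have hdep : ¬ LinearIndependent ℝ ![p1, y, v] := by
      intro hli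
      have := hli.fintype_card_le_finrank
      rw [hV] at this
      simp at this
    rw [Fintype.not_linearIndependent_iff] at hdep
    obtain ⟨g, hg, i0, hi0⟩ := hdep
    simp only [Fin.sum_univ_three, Matrix.cons_val_zero, Matrix.cons_val_one,
      Matrix.cons_val] at hg
    have e1 := congrArg f hg
    rw [map_add, map_add, map_smul, map_smul, map_smul, map_zero, fp1, hy, smul_zero,
      smul_zero, zero_add, zero_add, smul_eq_mul] at e1
    have g2 : g 2 = 0 := by
      rcases mul_eq_zero.mp e1 with h1 | h1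
      · exact h1
      · exact absurd h1 fv.ne'
    rw [g2, zero_smul, add_zero] at hg
    have g1 : g 1 ≠ 0 := by
      intro g1
      rw [g1, zero_smul, add_zero, smul_eq_zero] at hg
      have g0 : g 0 = 0 := by
        rcases hg with h1 | h1
        · exact h1
        · exact absurd h1 p1ne
      apply hi0
      fin_cases i0
      · exact g0
      · exact g1
      · exact g2
    refine ⟨-(g 0 / g 1), ?_⟩
    have e2 : g 1 • y = -(g 0 • p1) := by
      rw [eq_neg_iff_add_eq_zero, add_comm]; exact hg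
    have e3 : y = (g 1)⁻¹ • (g 1 • y) := by rw [smul_smul, inv_mul_cancel₀ g1, one_smul]
    rw [e3, e2, smul_neg, smul_smul, ← neg_smul]
    congr 1
    ring
  obtain ⟨c1, hc1⟩ := line y1 fy1
  obtain ⟨c2, hc2⟩ := line y2 fy2
  have c1pos : 0 < c1 := by
    by_contra hcon
    push Not at hcon
    rcases eq_or_lt_of_le hcon with h1 | h1
    · rw [h1, zero_smul] at hc1
      exact N2 (hc1 ▸ Y1)
    · have e : y1 + (-c1) • p1 = 0 := by rw [hc1]; module
      exact N2 (e ▸ (ConvexCone.hull ℝ E2).add_mem Y1 ((ConvexCone.hull ℝ E2).smul_mem (by linarith) P1))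
  have c2neg : c2 < 0 := by
    by_contra hcon
    push Not at hcon
    rcases eq_or_lt_of_le hcon with h1 | h1
    · rw [← h1, zero_smul] at hc2
      exact N3 (hc2 ▸ Y2)
    · have e : y2 + (c2 * β / α) • p2 = 0 := by
        have e1 : p1 = -((β / α) • p2) := by
          have : α • p1 = -(β • p2) := by rw [eq_neg_iff_add_eq_zero]; exact hrel
          have e3 : p1 = α⁻¹ • (α • p1) := by
            rw [smul_smul, inv_mul_cancel₀ αpos.ne', one_smul]
          rw [e3, this, smul_neg, smul_smul]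
          congr 2; ring
        rw [hc2, e1, smul_neg, smul_smul]
        have : c2 * (β / α) = c2 * β / α := by ring
        rw [this]
        exact neg_add_cancel _
      exact N3 (e ▸ (ConvexCone.hull ℝ E3).add_mem Y2 ((ConvexCone.hull ℝ E3).smul_mem (by positivity) P2))
  have hzero : (-c2) • y1 + c1 • y2 = 0 := by rw [hc1, hc2]; module
  -- weights
  set Wu := -c2 * f v + c1 * f b3 * (1 - t) with hWu
  set Wv := c2 * f u with hWv
  set Wb := c1 * f b3 * t + c1 * (-(f x23)) with hWb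
  have hWu0 : 0 < Wu := by
    have := mul_pos (by linarith : 0 < -c2) fv
    have := mul_nonneg (mul_pos c1pos fb3).le (by linarith : 0 ≤ 1 - t)
    linarith
  have hWv0 : 0 < Wv := mul_pos_of_neg_of_neg c2neg fu
  have hWb0 : 0 < Wb := by
    have := mul_nonneg (mul_pos c1pos fb3).le t0
    have := mul_pos c1pos (by linarith : 0 < -(f x23))
    linarith
  have hcomb : Wu • u + Wv • v + Wb • b3 = 0 := by
    have e1 : y2 = (f b3) • ((1 - t) • u + t • b3) + (-(f x23)) • b3 := by rw [hy2, ← ht]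
    rw [← hzero, hy1, e1, hWu, hWv, hWb]
    module
  have hS : 0 < Wu + Wv + Wb := by linarith
  refine ⟨Wu / (Wu + Wv + Wb), Wv / (Wu + Wv + Wb), Wb / (Wu + Wv + Wb), by positivity,
    by positivity, by positivity, by field_simp, ?_⟩
  have e : (Wu / (Wu + Wv + Wb)) • u + (Wv / (Wu + Wv + Wb)) • v + (Wb / (Wu + Wv + Wb)) • b3 =
      (Wu + Wv + Wb)⁻¹ • (Wu • u + Wv • v + Wb • b3) := by
    have e1 : ∀ w : ℝ, w / (Wu + Wv + Wb) = (Wu + Wv + Wb)⁻¹ * w := fun w => by ring
    rw [smul_add, smul_add, smul_smul, smul_smul, smul_smul, e1 Wu, e1 Wv, e1 Wb]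
  rw [e, hcomb, smul_zero]

lemma El_comm (p q : V) : El p q = El q p := by
  ext c
  show ef p q c ≤ 0 ↔ ef q p c ≤ 0
  unfold ef
  rw [dist_comm p q, add_comm (dist c p)]

lemma notMem_of_ef {p q c : V} (h : 0 < ef p q c) :
    (0 : V) ∉ (fun x => x + c) ⁻¹' (El p q) := by
  intro hc
  have : ef p q (0 + c) ≤ 0 := hc
  rw [zero_add] at this
  linarith

lemma seg_sub {x y z : V} (c : V) (h : z ∈ segment ℝ x y) :
    z - c ∈ segment ℝ (x - c) (y - c) := by
  obtain ⟨a, b, ha, hb, hab, rfl⟩ := h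
  refine ⟨a, b, ha, hb, hab, ?_⟩
  have e : c = (a + b) • c := by rw [hab, one_smul]
  nth_rewrite 3 [e]
  module

/-- One half of the path lemma (`a1` is at least as far from `c` as `a3`). -/
lemma path_half (hV : Module.finrank ℝ V = 2) {a1 b1 u v a3 b3 : V}
    (H : PathIneq a1 b1 u v a3 b3) (huv : u ≠ v) {c : V}
    (B1 : 0 < ef a1 b1 c) (B2 : 0 < ef u v c) (B3 : 0 < ef a3 b3 c)
    (h13 : ‖a3 - c‖ ≤ ‖a1 - c‖) {x12 x13 x23 : V}
    (s12 : x12 ∈ segment ℝ b1 v) (s13 : x13 ∈ segment ℝ b1 b3) (s23 : x23 ∈ segment ℝ u b3)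
    (m12 : x12 ∈ El u v) (m23 : x23 ∈ El u v) (m13 : x13 ∈ El a3 b3) (m23' : x23 ∈ El a3 b3)
    (hc : c ∈ convexHull ℝ ({x12, x13, x23} : Set V)) : False := by
  obtain ⟨l, m, n, hl, hm, hn, hsum, hz⟩ := mem_hull3 hc
  have H' : PathIneq (a1 - c) (b1 - c) (u - c) (v - c) (a3 - c) (b3 - c) := by
    constructor <;> simp only [dist_sub_right]
    · exact H.b1u
    · exact H.b1v
    · exact H.b1a3
    · exact H.b1b3
    · exact H.b3u
    · exact H.b3v
    · exact H.b3a1
    · exact H.b3b1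
    · exact H.a1v
    · exact H.a1a3
    · exact H.a1b3
    · exact H.mb1v
    · exact H.mb1a3
    · exact H.mb1b3
    · exact H.ua3
    · exact H.ub3
  have cv2 : Convex ℝ ((fun x => x + c) ⁻¹' (El u v)) := (El_convex u v).translate_preimage_left c
  have cv3 : Convex ℝ ((fun x => x + c) ⁻¹' (El a3 b3)) :=
    (El_convex a3 b3).translate_preimage_left c
  have mem : ∀ {x p q : V}, x ∈ El p q → x - c ∈ (fun x => x + c) ⁻¹' (El p q) := by
    intro x p q hx
    show x - c + c ∈ El p q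
    rwa [sub_add_cancel]
  have B1' := bad_of_ef B1
  have B2' := bad_of_ef B2
  have B3' := bad_of_ef B3
  rcases split hV cv2 cv3 (notMem_of_ef B2) (notMem_of_ef B3) (seg_sub c s12) (seg_sub c s13)
    (seg_sub c s23) (mem m12) (mem m23) (mem m13) (mem m23') (mem (El_right _ _))
    (mem (El_left _ _)) (mem (El_right _ _)) hl hm hn hsum hz with
    ⟨l', m', n', hl', hm', hn', hs', hz'⟩ | ⟨l', m', n', hl', hm', hn', hs', hz'⟩
  · exact caseA hV H' B1' B2' B3' h13 hl' hm' hn' hs' hz'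
  · refine caseB hV H' B2' B3' h13 ?_ hl' hm' hn' hs' hz'
    intro h
    exact huv (sub_left_injective h)

/-- The path inequalities are symmetric. -/
lemma PathIneq.symm {a1 b1 u v a3 b3 : V} (H : PathIneq a1 b1 u v a3 b3) :
    PathIneq a3 b3 v u a1 b1 := by
  have c1 : dist v u = dist u v := dist_comm _ _
  constructor <;> try rw [c1]
  · exact H.b3v
  · exact H.b3u
  · exact H.b3a1
  · exact H.b3b1
  · exact H.b1v
  · exact H.b1u
  · exact H.b1a3
  · exact H.b1b3
  · rw [dist_comm]; exact H.ua3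
  · rw [dist_comm]; exact H.a1a3
  · rw [dist_comm]; exact H.mb1a3
  · rw [dist_comm]; exact H.ub3
  · rw [dist_comm]; exact H.a1b3
  · rw [dist_comm]; exact H.mb1b3
  · rw [dist_comm]; exact H.a1v
  · rw [dist_comm]; exact H.mb1v

/-- **Path lemma.** -/
theorem path3 (hV : Module.finrank ℝ V = 2) {a1 b1 u v a3 b3 : V}
    (H : PathIneq a1 b1 u v a3 b3) (huv : u ≠ v) :
    ∃ c, dist c a1 + dist c b1 ≤ al * dist a1 b1 ∧ dist c u + dist c v ≤ al * dist u v ∧
      dist c a3 + dist c b3 ≤ al * dist a3 b3 := by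
  by_contra hcon
  have hno : ∀ c, ¬ (ef a1 b1 c ≤ 0 ∧ ef u v c ≤ 0 ∧ ef a3 b3 c ≤ 0) := by
    rintro c ⟨h0, h1, h2⟩
    apply hcon
    unfold ef at h0 h1 h2
    exact ⟨c, by linarith, by linarith, by linarith⟩
  have c1 : dist v u = dist u v := dist_comm _ _
  obtain ⟨x12, s12, m12a, m12b⟩ := pair_seg (p1 := a1) (q1 := b1) (p2 := u) (q2 := v)
    H.b1u H.b1v (by rw [dist_comm]; exact H.a1v) H.mb1v
  obtain ⟨x23, s23, m23a, m23b⟩ := pair_seg (p1 := v) (q1 := u) (p2 := a3) (q2 := b3)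
    (by rw [c1]; exact H.ua3) (by rw [c1]; exact H.ub3) H.b3v
    (by rw [dist_comm u b3]; exact H.b3u)
  obtain ⟨x13, s13, m13a, m13b⟩ := pair_seg (p1 := a1) (q1 := b1) (p2 := a3) (q2 := b3)
    H.b1a3 H.b1b3 H.b3a1 (by rw [dist_comm b1 b3]; exact H.b3b1)
  have m23a' : x23 ∈ El u v := by rw [El_comm]; exact m23a
  obtain ⟨c, hc, f1, f2, f3⟩ := berge_ef (p1 := a1) (q1 := b1) (p2 := u) (q2 := v) (p3 := a3)
    (q3 := b3) ⟨m12a, m12b⟩ ⟨m13a, m13b⟩ ⟨m23a', m23b⟩ hno
  rcases le_total ‖a3 - c‖ ‖a1 - c‖ with h | h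
  · exact path_half hV H huv f1 f2 f3 h s12 s13 s23 m12b m23a' m13b m23b hc
  · have f2' : 0 < ef v u c := by
      unfold ef at f2 ⊢
      rw [c1]; linarith
    refine path_half hV H.symm huv.symm f3 f2' f1 h (x12 := x23) (x13 := x13) (x23 := x12)
      ?_ ?_ ?_ m23a (by rw [El_comm]; exact m12b) m13a m12a ?_
    · rw [segment_symm]; exact s23
    · rw [segment_symm]; exact s13
    · rw [segment_symm]; exact s12
    · have : ({x23, x13, x12} : Set V) = {x12, x13, x23} := by
        ext z; simp only [Set.mem_insert_iff, Set.mem_singleton_iff]; tauto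
      rw [this]; exact hc

end Pool.Agent.Helper72.Ell
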