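import Pool.Agent.Helper72.Ell.Cone

namespace Pool.Agent.Helper72.Ell

open Real

variable {V : Type*} [NormedAddCommGroup V] [InnerProductSpace ℝ V]

/-- the distance inequalities of a path `b1 - a1 .. u - v .. a3 - b3` -/
structure PathIneq (a1 b1 u v a3 b3 : V) : Prop where
  b1u : dist b1 u ≤ dist a1 b1
  b1v : dist b1 v ≤ dist a1 b1
  b1a3 : dist b1 a3 ≤ dist a1 b1
  b1b3 : dist b1 b3 ≤ dist a1 b1
  b3u : dist b3 u ≤ dist a3 b3
  b3v : dist b3 v ≤ dist a3 b3
  b3a1 : dist b3 a1 ≤ dist a3 b3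
  b3b1 : dist b3 b1 ≤ dist a3 b3
  a1v : dist a1 v ≤ dist u v
  a1a3 : dist a1 a3 ≤ dist u v
  a1b3 : dist a1 b3 ≤ dist u v
  mb1v : dist b1 v ≤ dist u v
  mb1a3 : dist b1 a3 ≤ dist u v
  mb1b3 : dist b1 b3 ≤ dist u v
  ua3 : dist u a3 ≤ dist u v
  ub3 : dist u b3 ≤ dist u v

/-- Case A: the origin is in the triangle `b1, v, b3`. -/
lemma caseA (hV : Module.finrank ℝ V = 2) {a1 b1 u v a3 b3 : V} (H : PathIneq a1 b1 u v a3 b3)
    (B1 : al * dist a1 b1 < ‖a1‖ + ‖b1‖) (B2 : al * dist u v < ‖u‖ + ‖v‖)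
    (B3 : al * dist a3 b3 < ‖a3‖ + ‖b3‖) (h13 : ‖a3‖ ≤ ‖a1‖)
    {l m n : ℝ} (hl : 0 ≤ l) (hm : 0 ≤ m) (hn : 0 ≤ n) (hsum : l + m + n = 1)
    (h : l • b1 + m • v + n • b3 = 0) : False := by
  have hal := al_pos
  have mul : ∀ {x y : ℝ}, x ≤ y → al * x ≤ al * y := fun h => mul_le_mul_of_nonneg_left h hal.le
  -- `w ∈ {a1, u}`
  have main : ∀ w : V, ‖a1‖ ≤ ‖w‖ → ‖u‖ ≤ ‖w‖ → dist b1 w ≤ dist a1 b1 →
      dist v w ≤ dist u v → dist b3 w ≤ dist a3 b3 → dist b3 w ≤ dist u v → False := by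
    intro w ha1 hu hb1w hvw hb3w hb3w'
    have hw : w ≠ 0 := by
      rintro rfl
      rw [norm_zero] at ha1 hu
      rw [dist_zero_right] at hb1w
      have := norm_nonneg a1
      have := mul hb1w
      have := al_gt
      have : 0 ≤ ‖b1‖ := norm_nonneg _
      nlinarith
    have w1 := mul hb1w
    have w2 := mul hvw
    have w3 := mul hb3w
    have w4 := mul hb3w'
    have s1 := mul H.b1v
    have s2 := mul H.mb1v
    have s3 := mul H.b3v
    have s4 := mul H.b1b3
    have s5 := mul H.b3b1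
    rw [dist_comm b3 v] at s3
    rw [dist_comm b3 b1] at s5
    obtain ⟨s, hs, hz | hz | hz⟩ := exit_side hV hl hm hn hsum h hw
    · exact lemmaG hs hz (by linarith) (by linarith) (by linarith) (by linarith)
    · exact lemmaG' hs hz (by linarith) (by linarith) (by linarith) (by linarith)
    · exact lemmaG hs hz (by linarith) (by linarith) (by linarith) (by linarith)
  rcases le_total ‖u‖ ‖a1‖ with h1 | h1
  · rcases le_total ‖v‖ ‖a1‖ with h2 | h2
    · -- w = a1
      refine main a1 le_rfl h1 ?_ ?_ H.b3a1 ?_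
      · rw [dist_comm]
      · rw [dist_comm]; exact H.a1v
      · rw [dist_comm]; exact H.a1b3
    · -- w = v
      have hv : v ≠ 0 := by
        rintro rfl
        rw [norm_zero] at h2
        have e1 : ‖a1‖ = 0 := le_antisymm h2 (norm_nonneg _)
        have e2 : ‖u‖ = 0 := le_antisymm (by linarith) (norm_nonneg _)
        rw [e2, norm_zero, dist_zero_right, e2] at B2
        linarith
      obtain ⟨s, hs, hz⟩ := opp_side (q1 := v) (q2 := b1) (q3 := b3) hm hl hn (by linarith)
        (by rw [← h]; abel) hv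
      have w1 := mul H.b1v
      have w3 := mul H.b3v
      have s4 := mul H.b1b3
      have s5 := mul H.b3b1
      rw [dist_comm b3 b1] at s5
      exact lemmaG hs hz (by linarith) (by linarith) (by linarith) (by linarith)
  · rcases le_total ‖v‖ ‖u‖ with h2 | h2
    · -- w = u
      refine main u h1 le_rfl H.b1u ?_ H.b3u ?_
      · rw [dist_comm]
      · rw [dist_comm]; exact H.ub3
    · have hv : v ≠ 0 := by
        rintro rfl
        rw [norm_zero] at h2
        have e2 : ‖u‖ = 0 := le_antisymm (by linarith) (norm_nonneg _)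
        rw [e2, norm_zero, dist_zero_right, e2] at B2
        linarith
      obtain ⟨s, hs, hz⟩ := opp_side (q1 := v) (q2 := b1) (q3 := b3) hm hl hn (by linarith)
        (by rw [← h]; abel) hv
      have w1 := mul H.b1v
      have w3 := mul H.b3v
      have s4 := mul H.b1b3
      have s5 := mul H.b3b1
      rw [dist_comm b3 b1] at s5
      exact lemmaG hs hz (by linarith) (by linarith) (by linarith) (by linarith)

/-- Case B: the origin is in the triangle `u, v, b3`. -/
lemma caseB (hV : Module.finrank ℝ V = 2) {a1 b1 u v a3 b3 : V} (H : PathIneq a1 b1 u v a3 b3)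
    (B2 : al * dist u v < ‖u‖ + ‖v‖)
    (B3 : al * dist a3 b3 < ‖a3‖ + ‖b3‖) (h13 : ‖a3‖ ≤ ‖a1‖) (huv : u ≠ v)
    {l m n : ℝ} (hl : 0 ≤ l) (hm : 0 ≤ m) (hn : 0 ≤ n) (hsum : l + m + n = 1)
    (h : l • u + m • v + n • b3 = 0) : False := by
  have hal := al_pos
  have hgt := al_gt
  have mul : ∀ {x y : ℝ}, x ≤ y → al * x ≤ al * y := fun h => mul_le_mul_of_nonneg_left h hal.le
  have hL : 0 < dist u v := dist_pos.mpr huv
  have hu0 := norm_nonneg u
  have hv0 := norm_nonneg v
  have hb0 := norm_nonneg b3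
  -- `w = v` impossible
  have Wv : ‖a3‖ ≤ ‖v‖ → v ≠ 0 → False := by
    intro ha hv
    obtain ⟨s, hs, hz⟩ := opp_side (q1 := v) (q2 := u) (q3 := b3) hm hl hn (by linarith)
        (by rw [← h]; abel) hv
    have w3 := mul H.b3v
    have s4 := mul H.ub3
    have s5 := mul H.b3u
    rw [dist_comm b3 u] at s5
    exact lemmaG hs hz (by linarith) (by linarith) (by linarith) (by linarith)
  have Wu : ‖a3‖ ≤ ‖u‖ → u ≠ 0 → False := by
    intro ha hu
    obtain ⟨s, hs, hz⟩ := opp_side (q1 := u) (q2 := v) (q3 := b3) hl hm hn (by linarith) h hu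
    have w1 := mul H.ub3
    have w3 := mul H.b3u
    have s4 := mul H.b3v
    rw [dist_comm b3 v] at s4
    have c1 : dist b3 u = dist u b3 := dist_comm _ _
    have c2 : dist v u = dist u v := dist_comm _ _
    refine lemmaG' hs hz ?_ ?_ ?_ ?_
    · rw [c2]; linarith
    · rw [c1]; linarith
    · linarith
    · linarith
  -- hence `A = ‖a3‖` is at least `‖u‖, ‖v‖`
  have hvne : ‖a3‖ ≤ ‖v‖ → ‖u‖ ≤ ‖v‖ → False := by
    intro h1 h2
    apply Wv h1
    rintro rfl
    rw [norm_zero] at h2 B2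
    have := mul_pos hal hL
    linarith
  have hune : ‖a3‖ ≤ ‖u‖ → ‖v‖ ≤ ‖u‖ → False := by
    intro h1 h2
    apply Wu h1
    rintro rfl
    rw [norm_zero] at h2 B2
    have := mul_pos hal hL
    linarith
  have hUA : ‖u‖ ≤ ‖a3‖ := by
    by_contra hcon
    push Not at hcon
    rcases le_total ‖u‖ ‖v‖ with h1 | h1
    · exact hvne (by linarith) h1
    · exact hune hcon.le h1
  have hWA : ‖v‖ ≤ ‖a3‖ := by
    by_contra hcon
    push Not at hcon
    rcases le_total ‖u‖ ‖v‖ with h1 | h1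
    · exact hvne hcon.le h1
    · exact hune (by linarith) h1
  have hApos : 0 < ‖a3‖ := by
    have := mul_pos hal hL
    linarith
  have ha3 : a3 ≠ 0 := norm_pos_iff.mp hApos
  have ha1 : a1 ≠ 0 := norm_pos_iff.mp (by linarith)
  -- `b3 ≠ 0`
  have hb3 : b3 ≠ 0 := by
    rintro rfl
    rw [dist_zero_right, norm_zero, add_zero] at B3
    nlinarith
  have hr : 0 < ‖b3‖ := norm_pos_iff.mpr hb3
  have hu : u ≠ 0 := by
    rintro rfl
    have : dist 0 v ≤ dist 0 v := le_rfl
    rw [norm_zero, zero_add, dist_zero_left] at B2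
    nlinarith
  have hv : v ≠ 0 := by
    rintro rfl
    rw [norm_zero, add_zero, dist_zero_right] at B2
    nlinarith
  -- origin not on `[u, v]`
  have Nuv : (0 : V) ∉ segment ℝ u v := by
    intro h0
    obtain ⟨t, t0, t1, ht⟩ := mem_seg h0
    have e1 := dist_left_seg u v t0
    have e2 := dist_right_seg u v t1
    rw [← ht, dist_zero_left] at e1 e2
    nlinarith
  -- exit sides of `a3`
  have g1 := mul H.ua3
  have g2 := mul H.ub3
  have g3 := mul H.b3u
  have E3 : ∀ s : ℝ, 0 ≤ s → -(s • a3) ∈ segment ℝ u b3 → False := by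
    intro s hs hz
    rw [dist_comm b3 u] at g3
    refine lemmaG hs hz (by linarith) ?_ (by linarith) (by linarith)
    rw [dist_comm]; exact B3
  have E1 : ∀ s : ℝ, 0 ≤ s → ‖u‖ ≤ ‖a1‖ → -(s • a1) ∈ segment ℝ v b3 → False := by
    intro s hs hua hz
    have k1 := mul H.a1v
    have k2 := mul H.a1b3
    have k3 := mul H.b3a1
    have k4 := mul H.b3v
    rw [dist_comm b3 v] at k4
    have c1 : dist b3 a1 = dist a1 b3 := dist_comm _ _
    have c2 : dist v a1 = dist a1 v := dist_comm _ _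
    refine lemmaG' hs hz ?_ ?_ ?_ ?_
    · rw [c2]; linarith
    · rw [c1]; linarith
    · linarith
    · linarith
  have Nub : (0 : V) ∉ segment ℝ u b3 := fun h0 => E3 0 le_rfl (by simpa using h0)
  have Nvb : (0 : V) ∉ segment ℝ v b3 := fun h0 => E1 0 le_rfl (by linarith) (by simpa using h0)
  -- all weights positive
  have lpos : 0 < l := by
    rcases lt_or_eq_of_le hl with h1 | h1
    · exact h1
    · exfalso
      rw [← h1, zero_smul, zero_add] at h
      exact Nvb ⟨m, n, hm, hn, by linarith, h⟩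
  have mpos : 0 < m := by
    rcases lt_or_eq_of_le hm with h1 | h1
    · exact h1
    · exfalso
      rw [← h1, zero_smul, add_zero] at h
      exact Nub ⟨l, n, hl, hn, by linarith, h⟩
  have npos : 0 < n := by
    rcases lt_or_eq_of_le hn with h1 | h1
    · exact h1
    · exfalso
      rw [← h1, zero_smul, add_zero] at h
      exact Nuv ⟨l, m, hl, hm, by linarith, h⟩
  -- the exit sides
  obtain ⟨s1, hs1, X1⟩ : ∃ s : ℝ, 0 ≤ s ∧ (-(s • a1) ∈ segment ℝ u v ∨
      -(s • a1) ∈ segment ℝ u b3) := by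
    obtain ⟨s, hs, hz | hz | hz⟩ := exit_side hV hl hm hn hsum h ha1
    · exact ⟨s, hs, Or.inl hz⟩
    · exact (E1 s hs (by linarith) hz).elim
    · exact ⟨s, hs, Or.inr hz⟩
  obtain ⟨s3, hs3, X3⟩ : ∃ s : ℝ, 0 ≤ s ∧ (-(s • a3) ∈ segment ℝ u v ∨
      -(s • a3) ∈ segment ℝ v b3) := by
    obtain ⟨s, hs, hz | hz | hz⟩ := exit_side hV hl hm hn hsum h ha3
    · exact ⟨s, hs, Or.inl hz⟩
    · exact ⟨s, hs, Or.inr hz⟩
    · exact (E3 s hs hz).elim
  have s1pos : 0 < s1 := by
    rcases lt_or_eq_of_le hs1 with h1 | h1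
    · exact h1
    · exfalso
      rw [← h1, zero_smul, neg_zero] at X1
      rcases X1 with X1 | X1
      · exact Nuv X1
      · exact Nub X1
  have s3pos : 0 < s3 := by
    rcases lt_or_eq_of_le hs3 with h1 | h1
    · exact h1
    · exfalso
      rw [← h1, zero_smul, neg_zero] at X3
      rcases X3 with X3 | X3
      · exact Nuv X3
      · exact Nvb X3
  by_cases hcase : (1 + al) * ‖a3‖ ≤ al * al * dist u v
  · -- case (i)
    obtain ⟨s, hs, hz⟩ := opp_side (q1 := b3) (q2 := u) (q3 := v) hn hl hm (by linarith)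
      (by rw [← h]; abel) hb3
    obtain ⟨t, t0, t1, ht⟩ := mem_seg hz
    have st1 := stewart u v b3 t
    have st2 := stewart u v 0 t
    rw [← ht] at st1 st2
    have e1 : dist (-(s • b3)) b3 = (s + 1) * ‖b3‖ := by
      rw [dist_eq_norm]
      have : -(s • b3) - b3 = -((s + 1) • b3) := by module
      rw [this, norm_neg, norm_smul, Real.norm_eq_abs, abs_of_nonneg (by linarith)]
    have e2 : dist (-(s • b3)) 0 = s * ‖b3‖ := by
      rw [dist_zero_right, norm_neg, norm_smul, Real.norm_eq_abs, abs_of_nonneg hs]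
    rw [e1] at st1
    rw [e2, dist_zero_right, dist_zero_right] at st2
    refine num_i (l3 := dist a3 b3) hL hr hApos hs t0 t1 hUA hWA B2 B3 dist_nonneg ?_ ?_
      dist_nonneg dist_nonneg st1 st2 hcase
    · rw [dist_comm]; exact H.b3u
    · rw [dist_comm]; exact H.b3v
  · -- case (ii)
    push Not at hcase
    have hA : 0.7886 * dist u v ≤ ‖a3‖ := by
      by_contra hcon
      push Not at hcon
      rw [al_sq] at hcase
      have e1 := mul_lt_mul_of_pos_left hcon (by linarith : 0 < 1 + al)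
      have e2 := mul_lt_mul_of_pos_right hgt hL
      linarith
    have hA2 : dist u v ^ 2 ≤ 2 * ‖a3‖ ^ 2 := by
      have : (0.7886 * dist u v) ^ 2 ≤ ‖a3‖ ^ 2 := pow_le_pow_left₀ (by positivity) hA 2
      have e1 : 0 < dist u v ^ 2 := by positivity
      linarith [(by ring : (0.7886 * dist u v) ^ 2 = 0.62188996 * dist u v ^ 2)]
    have hAL : dist u v < al * ‖a3‖ := by
      have e1 := mul_lt_mul_of_pos_right hgt hApos
      linarith
    have hin : 0 < (inner ℝ a1 a3) := by
      have i13 := inner_dist a1 a3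
      have q1 : dist a1 a3 ^ 2 ≤ dist u v ^ 2 := pow_le_pow_left₀ dist_nonneg H.a1a3 2
      have qa : ‖a3‖ ^ 2 ≤ ‖a1‖ ^ 2 := pow_le_pow_left₀ hApos.le h13 2
      have e1 : 0 < dist u v ^ 2 := by positivity
      have : (0.7886 * dist u v) ^ 2 ≤ ‖a3‖ ^ 2 := pow_le_pow_left₀ (by positivity) hA 2
      linarith [(by ring : (0.7886 * dist u v) ^ 2 = 0.62188996 * dist u v ^ 2)]
    have Nb : ¬ InCone a1 a3 b3 := fun hc =>
      b_not_cone hApos h13 rfl H.b3a1 (by rw [dist_comm]) B3 hb3 hin.le hc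
    have Nu : ¬ InCone a1 a3 u := fun hc =>
      u_not_cone hL hApos h13 rfl H.a1a3 H.ua3 (by linarith) hAL hA2 hc
    have Nv : ¬ InCone a1 a3 v := fun hc =>
      v_not_cone hL hApos h13 rfl H.a1a3 (by rw [dist_comm]; exact H.a1v) (by linarith) hAL hA2 hc
    rcases X1 with ⟨x1, y1, hx1, hy1, -, z1⟩ | ⟨x1, y1, hx1, hy1, -, z1⟩ <;>
      rcases X3 with ⟨x3, y3, hx3, hy3, -, z3⟩ | ⟨x3, y3, hx3, hy3, -, z3⟩
    · -- both on `[u, v]`
      exact case_D hL hA h13 rfl hUA hWA rfl B2 (by rw [dist_comm]; exact H.a1v) H.ua3 hu hv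
        hx1 hy1 hx3 hy3 s1pos s3pos z1 z3
    · -- `a1` on `[u, v]`, `a3` on `[v, b3]`: `P1 = u`, `P3 = b3`, `M = v`
      rcases cone_lemma (P1 := u) (P3 := b3) (M := v) lpos npos (by rw [← h]; abel)
        hx1 hy1 hy3 hx3 s1pos s3pos z1 (by rw [add_comm]; exact z3) hin with hc | hc
      · exact Nv hc
      · exact Nu hc
    · -- `a1` on `[u, b3]`, `a3` on `[u, v]`: `P1 = b3`, `P3 = v`, `M = u`
      rcases cone_lemma (P1 := b3) (P3 := v) (M := u) npos mpos (by rw [← h]; abel)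
        hy1 hx1 hy3 hx3 s1pos s3pos (by rw [add_comm]; exact z1) (by rw [add_comm]; exact z3)
        hin with hc | hc
      · exact Nu hc
      · exact Nb hc
    · -- `a1` on `[u, b3]`, `a3` on `[v, b3]`: `P1 = u`, `P3 = v`, `M = b3`
      rcases cone_lemma (P1 := u) (P3 := v) (M := b3) lpos mpos h
        hx1 hy1 hx3 hy3 s1pos s3pos z1 z3 hin with hc | hc
      · exact Nb hc
      · exact Nu hc

end Pool.Agent.Helper72.Ell
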