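import Pool.Agent.Helper72.Ell.Star

namespace Pool.Agent.Helper72.Ell

open Real

variable {V : Type*} [NormedAddCommGroup V] [InnerProductSpace ℝ V]

lemma inner_dist (x y : V) : 2 * (inner ℝ x y) = ‖x‖ ^ 2 + ‖y‖ ^ 2 - dist x y ^ 2 := by
  rw [dist_eq_norm, norm_sub_sq_real]; ring

/-! ### Numerical facts -/

lemma num_height {U W L t h2 : ℝ} (e : h2 = (1 - t) * U ^ 2 + t * W ^ 2 - t * (1 - t) * L ^ 2) :
    ((U + W) ^ 2 - L ^ 2) * (L ^ 2 - (U - W) ^ 2) ≤ 4 * L ^ 2 * h2 := by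
  have e : 4 * L ^ 2 * h2 - ((U + W) ^ 2 - L ^ 2) * (L ^ 2 - (U - W) ^ 2) =
      (2 * L ^ 2 * t + (W ^ 2 - U ^ 2 - L ^ 2)) ^ 2 := by
    rw [e]; ring
  have := sq_nonneg (2 * L ^ 2 * t + (W ^ 2 - U ^ 2 - L ^ 2))
  linarith

lemma num_A {A L : ℝ} (hL : 0 < L) (hAL : (1 + al) * A ≤ al * al * L) : A ≤ 0.7887 * L := by
  by_contra hcon
  push Not at hcon
  have hlt := al_lt
  have hal := al_pos
  rw [al_sq] at hAL
  have e1 := mul_lt_mul_of_pos_left hcon (by linarith : 0 < 1 + al)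
  have e2 := mul_lt_mul_of_pos_right hlt hL
  linarith

lemma num_alU {A U W L : ℝ} (hW : W ≤ A) (hUW : al * L < U + W)
    (hAL : (1 + al) * A ≤ al * al * L) : A ≤ al * U := by
  have hal := al_pos
  have e1 := mul_lt_mul_of_pos_left hUW hal
  have e2 := mul_le_mul_of_nonneg_left hW hal.le
  linarith

/-- a lower bound for the height over `[u, v]` -/
lemma num_h {A U W L h : ℝ} (hL : 0 < L) (hUA : U ≤ A)
    (hWA : W ≤ A) (hUW : al * L < U + W) (hA1 : A ≤ 0.7887 * L)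
    (hh : ((U + W) ^ 2 - L ^ 2) * (L ^ 2 - (U - W) ^ 2) ≤ 4 * L ^ 2 * h ^ 2) :
    0.2067 * L ^ 2 ≤ h ^ 2 := by
  have hgt := mul_lt_mul_of_pos_right al_gt hL
  have hf1 : 0.8659 * L ^ 2 ≤ (U + W) ^ 2 - L ^ 2 := by
    have e1 : (1.366 * L) ^ 2 ≤ (U + W) ^ 2 :=
      pow_le_pow_left₀ (by positivity) (by linarith) 2
    have e2 : (1.366 * L) ^ 2 = 1.865956 * L ^ 2 := by ring
    have e3 : 0 < L ^ 2 := by positivity
    linarith
  have hf2 : 0.9553 * L ^ 2 ≤ L ^ 2 - (U - W) ^ 2 := by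
    have e1 : |U - W| ≤ 0.2114 * L := by
      rw [abs_le]; constructor <;> linarith
    have e2 : (U - W) ^ 2 ≤ (0.2114 * L) ^ 2 := by
      rw [← sq_abs (U - W)]
      exact pow_le_pow_left₀ (abs_nonneg _) e1 2
    have e3 : (0.2114 * L) ^ 2 = 0.04468996 * L ^ 2 := by ring
    have e4 : 0 < L ^ 2 := by positivity
    linarith
  have hL2 : 0 < L ^ 2 := by positivity
  have hf3 : 0.8659 * L ^ 2 * (0.9553 * L ^ 2) ≤ 4 * L ^ 2 * h ^ 2 := by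
    refine le_trans ?_ hh
    apply mul_le_mul hf1 hf2 (by positivity)
    exact le_trans (by positivity) hf1
  have hf4 : 0 ≤ L ^ 2 * (4 * h ^ 2 - 0.82719427 * L ^ 2) := by
    have e1 : 0.8659 * L ^ 2 * (0.9553 * L ^ 2) = 0.82719427 * (L ^ 2 * L ^ 2) := by ring
    rw [e1] at hf3
    linarith
  have h5 := nonneg_of_mul_nonneg_right hf4 hL2
  linarith

lemma num_h2 {A L h : ℝ} (hh0 : 0 ≤ h) (hA : 0 ≤ A) (hA1 : A ≤ 0.7887 * L)
    (hh : 0.2067 * L ^ 2 ≤ h ^ 2) : A ≤ al * al * h := by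
  have e1 : A ^ 2 ≤ (al * al * h) ^ 2 := by
    have e2 : (1.866 : ℝ) ^ 2 ≤ (al * al) ^ 2 := by
      apply pow_le_pow_left₀ (by norm_num)
      rw [al_sq]; linarith [al_gt]
    have e3 : A ^ 2 ≤ (0.7887 * L) ^ 2 := pow_le_pow_left₀ hA hA1 2
    have e4 : (1.866 : ℝ) ^ 2 * (0.2067 * L ^ 2) ≤ (al * al) ^ 2 * h ^ 2 :=
      mul_le_mul e2 hh (by positivity) (by positivity)
    rw [mul_pow (al * al)]
    have e5 : (0.7887 * L) ^ 2 ≤ 1.866 ^ 2 * (0.2067 * L ^ 2) := by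
      have : 0 ≤ L ^ 2 := by positivity
      linarith [this, (by ring : (0.7887 * L) ^ 2 = 0.62204769 * L ^ 2),
        (by ring : (1.866 : ℝ) ^ 2 * (0.2067 * L ^ 2) = 0.7197203052 * L ^ 2)]
    linarith
  exact le_of_sq_le_sq e1 (by have := al_pos; positivity)

lemma num_weight {A U W t : ℝ} (hA : 0 ≤ A) (h0 : 0 ≤ t) (h1 : t ≤ 1) (hU : A ≤ al * U)
    (hW : A ≤ al * W) : A ^ 2 ≤ al * al * ((1 - t) * U ^ 2 + t * W ^ 2) := by
  have e1 : A ^ 2 ≤ (al * U) ^ 2 := pow_le_pow_left₀ hA hU 2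
  have e2 : A ^ 2 ≤ (al * W) ^ 2 := pow_le_pow_left₀ hA hW 2
  have e3 := mul_le_mul_of_nonneg_left e1 (by linarith : (0 : ℝ) ≤ 1 - t)
  have e4 := mul_le_mul_of_nonneg_left e2 h0
  have e5 : al * al * ((1 - t) * U ^ 2 + t * W ^ 2) =
    (1 - t) * (al * U) ^ 2 + t * (al * W) ^ 2 := by ring
  rw [e5]
  linarith

/-- Case (i): numerical contradiction. -/
lemma num_i {A U W r L l3 s t du dv : ℝ} (hL : 0 < L) (hr : 0 < r) (hA : 0 < A)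
    (hs : 0 ≤ s) (h0 : 0 ≤ t) (h1 : t ≤ 1)
    (hUA : U ≤ A) (hWA : W ≤ A) (hUW : al * L < U + W) (h3 : al * l3 < A + r) (hl3 : 0 ≤ l3)
    (hdu : du ≤ l3) (hdv : dv ≤ l3) (hdu0 : 0 ≤ du) (hdv0 : 0 ≤ dv)
    (hst1 : (1 - t) * du ^ 2 + t * dv ^ 2 = ((s + 1) * r) ^ 2 + t * (1 - t) * L ^ 2)
    (hst2 : (1 - t) * U ^ 2 + t * W ^ 2 = (s * r) ^ 2 + t * (1 - t) * L ^ 2)
    (hAL : (1 + al) * A ≤ al * al * L) : False := by
  have hal := al_pos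
  have hA1 := num_A hL hAL
  have hU : A ≤ al * U := num_alU hWA hUW hAL
  have hW : A ≤ al * W := num_alU hUA (by linarith) hAL
  have hh := num_height (U := U) (W := W) (L := L) (t := t) (h2 := (s * r) ^ 2) (by linarith)
  have hh2 := num_h hL hUA hWA hUW hA1 hh
  have hf5 : A ≤ al * al * (s * r) := num_h2 (by positivity) hA.le hA1 hh2
  have g4 := num_weight hA.le h0 h1 hU hW
  have g1 : (al * l3) ^ 2 ≤ (A + r) ^ 2 := pow_le_pow_left₀ (by positivity) h3.le 2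
  have g2 : (1 - t) * du ^ 2 + t * dv ^ 2 ≤ l3 ^ 2 := by
    have e1 : du ^ 2 ≤ l3 ^ 2 := pow_le_pow_left₀ hdu0 hdu 2
    have e2 : dv ^ 2 ≤ l3 ^ 2 := pow_le_pow_left₀ hdv0 hdv 2
    have e3 := mul_le_mul_of_nonneg_left e1 (by linarith : (0 : ℝ) ≤ 1 - t)
    have e4 := mul_le_mul_of_nonneg_left e2 h0
    linarith
  have g3 : r ^ 2 + 2 * r * (s * r) + ((1 - t) * U ^ 2 + t * W ^ 2) ≤ l3 ^ 2 := by
    have e1 : ((s + 1) * r) ^ 2 = (s * r) ^ 2 + 2 * r * (s * r) + r ^ 2 := by ring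
    linarith
  have g5 : al * al * (2 * r * (s * r)) ≥ 2 * r * A := by
    have := mul_le_mul_of_nonneg_left hf5 (by positivity : 0 ≤ 2 * r)
    linarith
  have g6 := mul_le_mul_of_nonneg_left g3 (by positivity : 0 ≤ al * al)
  have g7 : r ^ 2 < al * al * r ^ 2 := by
    rw [al_sq]
    have : 0 < (al + 1 / 2 - 1) * r ^ 2 := mul_pos (by linarith [al_gt]) (by positivity)
    linarith
  have g8 : (A + r) ^ 2 = A ^ 2 + 2 * r * A + r ^ 2 := by ring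
  have g9 : (al * l3) ^ 2 = al * al * l3 ^ 2 := by ring
  rw [g8, g9] at g1
  linarith

/-- Case (ii): `u` (or `v`) in the cone, numerical contradiction. -/
lemma num_ii {A U L : ℝ} (hL : 0 < L) (hA : 0 < A) (hUA : al * L - A ≤ U)
    (hAL : L < al * A) (hA2 : L ^ 2 ≤ 2 * A ^ 2) (hUA2 : U ^ 2 + A ^ 2 ≤ L ^ 2)
    (h : U * (2 * A ^ 2 - L ^ 2) ≤ A * (L ^ 2 - U ^ 2 - A ^ 2)) : False := by
  have hal := al_pos
  have hAL2 : A ≤ L := by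
    have : A ^ 2 ≤ L ^ 2 := by nlinarith [sq_nonneg U]
    exact le_of_sq_le_sq this hL.le
  have hU1 : 0 < al * L - A := by
    have := mul_lt_mul_of_pos_right al_gt hL
    linarith
  have e1 : (al * L - A) * (2 * A ^ 2 - L ^ 2) ≤ U * (2 * A ^ 2 - L ^ 2) :=
    mul_le_mul_of_nonneg_right hUA (by linarith)
  have e2 : (al * L - A) ^ 2 ≤ U ^ 2 := pow_le_pow_left₀ hU1.le hUA 2
  have e3 := mul_le_mul_of_nonneg_left e2 hA.le
  have e4 : 0 < al * L ^ 2 * (al * A - L) :=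
    mul_pos (by positivity) (by linarith)
  have e5 : A * (L ^ 2 - (al * L - A) ^ 2 - A ^ 2) - (al * L - A) * (2 * A ^ 2 - L ^ 2) =
      -(al * L ^ 2 * (al * A - L)) := by ring
  linarith

/-- Case (D): numerical contradiction. -/
lemma num_D {A U W L : ℝ} (hL : 0 < L) (hA : 0.7886 * L ≤ A) (hUA : U ≤ A) (hWA : W ≤ A)
    (hUW : al * L < U + W)
    (h1 : U * (W ^ 2 + A ^ 2 - L ^ 2) ≤ A * (L ^ 2 - U ^ 2 - W ^ 2))
    (h2 : W * (U ^ 2 + A ^ 2 - L ^ 2) ≤ A * (L ^ 2 - U ^ 2 - W ^ 2)) : False := by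
  have hgt := mul_lt_mul_of_pos_right al_gt hL
  set S := U + W with hS
  have hS1 : 1.366 * L ≤ S := by linarith
  -- Q = U W ≤ S^2 / 4
  have hQ : U * W ≤ S ^ 2 / 4 := by rw [hS]; nlinarith [sq_nonneg (U - W)]
  have e1 : S * (A ^ 2 - L ^ 2) - 2 * A * (L ^ 2 - S ^ 2) ≤ (U * W) * (4 * A - S) := by
    rw [hS]; linarith
  have e2 : (U * W) * (4 * A - S) ≤ S ^ 2 / 4 * (4 * A - S) :=
    mul_le_mul_of_nonneg_right hQ (by rw [hS]; linarith)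
  have e3 : S * A ^ 2 + A * S ^ 2 - 2 * A * L ^ 2 - S * L ^ 2 + S ^ 3 / 4 ≤ 0 := by
    nlinarith
  obtain ⟨σ, hσ, hσ0⟩ : ∃ σ, S = 1.366 * L + σ ∧ 0 ≤ σ := ⟨S - 1.366 * L, by ring, by linarith⟩
  obtain ⟨τ, hτ, hτ0⟩ : ∃ τ, A = 0.7886 * L + τ ∧ 0 ≤ τ := ⟨A - 0.7886 * L, by ring, by linarith⟩
  rw [hσ, hτ] at e3
  have e4 : (1.366 * L + σ) * (0.7886 * L + τ) ^ 2 + (0.7886 * L + τ) * (1.366 * L + σ) ^ 2 -
      2 * (0.7886 * L + τ) * L ^ 2 - (1.366 * L + σ) * L ^ 2 + (1.366 * L + σ) ^ 3 / 4 =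
      (1.366 * 0.7886 ^ 2 + 0.7886 * 1.366 ^ 2 - 2 * 0.7886 - 1.366 + 1.366 ^ 3 / 4) * L ^ 3 +
      (2 * 1.366 * 0.7886 + 1.366 ^ 2 - 2) * L ^ 2 * τ +
      (0.7886 ^ 2 + 2 * 0.7886 * 1.366 - 1 + 3 * 1.366 ^ 2 / 4) * L ^ 2 * σ +
      1.366 * L * τ ^ 2 + (2 * 0.7886 + 2 * 1.366) * L * σ * τ +
      (0.7886 + 3 * 1.366 / 4) * L * σ ^ 2 + σ * τ ^ 2 + τ * σ ^ 2 + σ ^ 3 / 4 := by ring
  rw [e4] at e3
  norm_num at e3
  have e5 : 0 < L ^ 3 := by positivity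
  have : 0 ≤ L ^ 2 * τ := by positivity
  have : 0 ≤ L ^ 2 * σ := by positivity
  have : 0 ≤ L * τ ^ 2 := by positivity
  have : 0 ≤ L * σ * τ := by positivity
  have : 0 ≤ L * σ ^ 2 := by positivity
  have : 0 ≤ σ * τ ^ 2 := by positivity
  have : 0 ≤ τ * σ ^ 2 := by positivity
  have : 0 ≤ σ ^ 3 := by positivity
  nlinarith

end Pool.Agent.Helper72.Ell
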