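import Pool.Agent.Helper72.Ell.Basic

namespace Pool.Agent.Helper72.Ell

open Real

variable {V : Type*} [NormedAddCommGroup V] [InnerProductSpace ℝ V]

/-- **Lemma G'** in parametrised form. -/
lemma lemmaG'_aux (q q' w : V) {t : ℝ} (h0 : 0 ≤ t) (h1 : t ≤ 1) {P L : ℝ}
    (hP : P = dist ((1 - t) • q + t • q') w) (hL : L = dist q q')
    (hq : al * dist q w < P + t * L) (hq'1 : al * dist q' w < P + t * L)
    (hq'2 : al * dist q' w < P + (1 - t) * L)
    (hLq' : al * L < P + (1 - t) * L) : False := by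
  by_cases hcase : (1 - t) * L ≤ t * L
  · exact lemmaG_aux q q' w h0 h1 hP hL hq hq'2 (by linarith) hLq'
  push Not at hcase
  have hst := stewart q q' w t
  rw [← hP, ← hL] at hst
  have hP0 : 0 ≤ P := hP ▸ dist_nonneg
  have hL0 : 0 ≤ L := hL ▸ dist_nonneg
  have hx0 : 0 ≤ dist q w := dist_nonneg
  have hy0 : 0 ≤ dist q' w := dist_nonneg
  have hal := al_pos
  have halsq := al_sq
  have halgt := al_gt
  have hallt := al_lt
  set y := t * L with hy
  have hy_nn : 0 ≤ y := mul_nonneg h0 hL0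
  -- (2 al - 1) y < P
  have hyP : (2 * al - 1) * y < P := by
    have e1 : (al - 1) * y ≤ (al - 1) * ((1 - t) * L) :=
      mul_le_mul_of_nonneg_left hcase.le (by linarith)
    have e2 : al * L = al * y + al * ((1 - t) * L) := by rw [hy]; ring
    linarith
  have hPpos : 0 < P := lt_of_le_of_lt (mul_nonneg (by linarith) hy_nn) hyP
  have hx2 : al * al * dist q w ^ 2 ≤ (P + y) ^ 2 := by
    have : (al * dist q w) ^ 2 ≤ (P + y) ^ 2 := by
      apply pow_le_pow_left₀ (by positivity) hq.le
    linarith [this, mul_pow al (dist q w) 2, pow_two al]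
  have hy2 : al * al * dist q' w ^ 2 ≤ (P + y) ^ 2 := by
    have : (al * dist q' w) ^ 2 ≤ (P + y) ^ 2 := by
      apply pow_le_pow_left₀ (by positivity) hq'1.le
    linarith [this, mul_pow al (dist q' w) 2, pow_two al]
  have e1 := mul_le_mul_of_nonneg_left hx2 (by linarith : (0 : ℝ) ≤ 1 - t)
  have e2 := mul_le_mul_of_nonneg_left hy2 h0
  have key : al * al * (P ^ 2 + y * ((1 - t) * L)) ≤ (P + y) ^ 2 := by
    have e3 : P ^ 2 + y * ((1 - t) * L) = (1 - t) * dist q w ^ 2 + t * dist q' w ^ 2 := by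
      rw [hst, hy]; ring
    rw [e3]
    linarith
  have key1 : al * al * (P ^ 2 + y * y) ≤ (P + y) ^ 2 := by
    have e4 : y * y ≤ y * ((1 - t) * L) := mul_le_mul_of_nonneg_left hcase.le hy_nn
    have e5 : al * al * (P ^ 2 + y * y) ≤ al * al * (P ^ 2 + y * ((1 - t) * L)) := by
      apply mul_le_mul_of_nonneg_left _ (by positivity)
      linarith
    linarith
  rw [halsq] at key1
  have hk : (2 * al - 1) * (2 * al - 1) = 3 := by linear_combination 4 * halsq
  -- (P - k y)(k P - y) > 0 with k = 2 al - 1 = √3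
  have e6 : 0 < P - (2 * al - 1) * y := by linarith
  have e7 : 0 < (2 * al - 1) * P - y := by
    have e8 : (2 * al - 1) * ((2 * al - 1) * y) ≤ (2 * al - 1) * P :=
      mul_le_mul_of_nonneg_left hyP.le (by linarith)
    rw [← mul_assoc, hk] at e8
    have e9 : 0 < (2 * al - 1) * P := mul_pos (by linarith) hPpos
    linarith
  have e10 := mul_pos e6 e7
  have e11 : (P - (2 * al - 1) * y) * ((2 * al - 1) * P - y) =
      2 * ((al + 1 / 2) * (P ^ 2 + y * y) - (P + y) ^ 2) := by
    linear_combination (-P * y) * hk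
  linarith

/-- `dist` to the end points bounded from a point beyond the centre -/
lemma trick (w x : V) {s : ℝ} (hs : 0 ≤ s) :
    ‖w‖ + ‖x‖ ≤ dist (-(s • w)) w + dist (-(s • w)) x := by
  have e1 : dist (-(s • w)) w = s * ‖w‖ + ‖w‖ := by
    rw [dist_eq_norm]
    have : -(s • w) - w = -((s + 1) • w) := by module
    rw [this, norm_neg, norm_smul, Real.norm_eq_abs, abs_of_nonneg (by linarith)]
    ring
  have e2 : ‖x‖ ≤ s * ‖w‖ + dist (-(s • w)) x := by
    have h : x = -(s • w) - (-(s • w) - x) := by abel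
    calc ‖x‖ = ‖-(s • w) - (-(s • w) - x)‖ := by rw [← h]
      _ ≤ ‖-(s • w)‖ + ‖-(s • w) - x‖ := norm_sub_le _ _
      _ = s * ‖w‖ + dist (-(s • w)) x := by
        rw [norm_neg, norm_smul, Real.norm_eq_abs, abs_of_nonneg hs, dist_eq_norm]
  linarith

lemma mem_seg {x y z : V} (h : z ∈ segment ℝ x y) :
    ∃ t : ℝ, 0 ≤ t ∧ t ≤ 1 ∧ z = (1 - t) • x + t • y := by
  obtain ⟨a, b, ha, hb, hab, rfl⟩ := h
  exact ⟨b, hb, by linarith, by rw [show 1 - b = a by linarith]⟩

/-- **Lemma G**, seen from the origin: the point `-s w` lies on the side `[x, y]`. -/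
lemma lemmaG {x y w : V} {s : ℝ} (hs : 0 ≤ s) (hz : -(s • w) ∈ segment ℝ x y)
    (hx : al * dist x w < ‖w‖ + ‖x‖) (hy : al * dist y w < ‖w‖ + ‖y‖)
    (hLx : al * dist x y < ‖w‖ + ‖x‖) (hLy : al * dist x y < ‖w‖ + ‖y‖) : False := by
  obtain ⟨t, h0, h1, hz⟩ := mem_seg hz
  have hx' := trick w x hs
  have hy' := trick w y hs
  rw [hz, dist_left_seg x y h0] at hx'
  rw [hz, dist_right_seg x y h1] at hy'
  exact lemmaG_aux x y w h0 h1 rfl rfl (lt_of_lt_of_le hx hx') (lt_of_lt_of_le hy hy')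
    (lt_of_lt_of_le hLx hx') (lt_of_lt_of_le hLy hy')

/-- **Lemma G'**, seen from the origin. -/
lemma lemmaG' {q q' w : V} {s : ℝ} (hs : 0 ≤ s) (hz : -(s • w) ∈ segment ℝ q q')
    (hq : al * dist q w < ‖w‖ + ‖q‖) (hq'1 : al * dist q' w < ‖w‖ + ‖q‖)
    (hq'2 : al * dist q' w < ‖w‖ + ‖q'‖) (hL : al * dist q q' < ‖w‖ + ‖q'‖) : False := by
  obtain ⟨t, h0, h1, hz⟩ := mem_seg hz
  have hx' := trick w q hs
  have hy' := trick w q' hs
  rw [hz, dist_left_seg q q' h0] at hx'
  rw [hz, dist_right_seg q q' h1] at hy'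
  exact lemmaG'_aux q q' w h0 h1 rfl rfl (lt_of_lt_of_le hq hx') (lt_of_lt_of_le hq'1 hx')
    (lt_of_lt_of_le hq'2 hy') (lt_of_lt_of_le hL hy')

/-- **Opposite side**: the ray from a vertex through the origin meets the opposite side. -/
lemma opp_side {q1 q2 q3 : V} {l m n : ℝ} (hl : 0 ≤ l) (hm : 0 ≤ m) (hn : 0 ≤ n)
    (hsum : l + m + n = 1) (h : l • q1 + m • q2 + n • q3 = 0) (hq : q1 ≠ 0) :
    ∃ s : ℝ, 0 ≤ s ∧ -(s • q1) ∈ segment ℝ q2 q3 := by
  have hpos : 0 < m + n := by
    rcases lt_or_eq_of_le (add_nonneg hm hn) with h1 | h1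
    · exact h1
    · exfalso
      have hm0 : m = 0 := by linarith
      have hn0 : n = 0 := by linarith
      have hl0 : l = 1 := by linarith
      rw [hm0, hn0, hl0] at h
      apply hq
      simpa using h
  refine ⟨l / (m + n), by positivity, m / (m + n), n / (m + n), by positivity, by positivity,
    by field_simp, ?_⟩
  have e1 : m • q2 + n • q3 = -(l • q1) := by
    rw [eq_neg_iff_add_eq_zero, ← h]; abel
  have e2 : (m / (m + n)) • q2 + (n / (m + n)) • q3 = (m + n)⁻¹ • (m • q2 + n • q3) := by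
    rw [smul_add, smul_smul, smul_smul]
    congr 2 <;> ring
  rw [e2, e1, smul_neg, smul_smul]
  congr 2
  ring

/-- **Exit lemma**: in the plane, the ray from `w` through the origin, continued beyond it,
leaves the triangle through one of its sides. -/
lemma exit_side (hV : Module.finrank ℝ V = 2) {q1 q2 q3 : V} {l m n : ℝ}
    (hl : 0 ≤ l) (hm : 0 ≤ m) (hn : 0 ≤ n)
    (hsum : l + m + n = 1) (h : l • q1 + m • q2 + n • q3 = 0) {w : V} (hw : w ≠ 0) :
    ∃ s : ℝ, 0 ≤ s ∧ (-(s • w) ∈ segment ℝ q1 q2 ∨ -(s • w) ∈ segment ℝ q2 q3 ∨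
      -(s • w) ∈ segment ℝ q1 q3) := by
  classical
  have hfin : FiniteDimensional ℝ V := FiniteDimensional.of_finrank_pos (by rw [hV]; norm_num)
  -- a linear relation between the two side vectors and `w`
  have hdep : ¬ LinearIndependent ℝ ![q2 - q1, q3 - q1, w] := by
    intro hli
    have := hli.fintype_card_le_finrank
    rw [hV] at this
    simp at this
  rw [Fintype.not_linearIndependent_iff] at hdep
  obtain ⟨g, hg, i0, hi0⟩ := hdep
  simp only [Fin.sum_univ_three, Matrix.cons_val_zero, Matrix.cons_val_one,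
    Matrix.cons_val] at hg
  -- normalise the sign
  obtain ⟨a, b, e, hab, he, hrel⟩ : ∃ a b e : ℝ, ¬ (a = 0 ∧ b = 0) ∧ 0 ≤ e ∧
      a • (q2 - q1) + b • (q3 - q1) = -(e • w) := by
    have hne : ¬ (g 0 = 0 ∧ g 1 = 0) := by
      rintro ⟨h0, h1⟩
      rw [h0, h1] at hg
      have h2 : g 2 • w = 0 := by simpa using hg
      have h3 : g 2 = 0 := by
        rcases smul_eq_zero.mp h2 with h4 | h4
        · exact h4
        · exact absurd h4 hw
      apply hi0
      fin_cases i0
      · exact h0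
      · exact h1
      · exact h3
    rcases le_total 0 (g 2) with h2 | h2
    · exact ⟨g 0, g 1, g 2, hne, h2, by rw [eq_neg_iff_add_eq_zero]; exact hg⟩
    · refine ⟨-(g 0), -(g 1), -(g 2), ?_, by linarith, ?_⟩
      · rintro ⟨h0, h1⟩
        exact hne ⟨by linarith, by linarith⟩
      · rw [eq_neg_iff_add_eq_zero]
        have : -g 0 • (q2 - q1) + -g 1 • (q3 - q1) + -g 2 • w =
            -(g 0 • (q2 - q1) + g 1 • (q3 - q1) + g 2 • w) := by module
        rw [this, hg, neg_zero]
  -- the direction in barycentric coordinates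
  have hrel2 : (-a - b) • q1 + a • q2 + b • q3 = -(e • w) := by
    rw [← hrel]; module
  -- general position: `λ + r μ`
  have main : ∀ (l m n x y z : ℝ), 0 ≤ l → 0 ≤ m → 0 ≤ n → x + y + z = 0 →
      ¬ (x = 0 ∧ y = 0 ∧ z = 0) →
      ∃ r : ℝ, 0 ≤ r ∧ 0 ≤ l + r * x ∧ 0 ≤ m + r * y ∧ 0 ≤ n + r * z ∧
        (l + r * x = 0 ∨ m + r * y = 0 ∨ n + r * z = 0) := by
    intro l m n x y z hl hm hn hs hne
    let L : Fin 3 → ℝ := ![l, m, n]
    let X : Fin 3 → ℝ := ![x, y, z]
    have hL : ∀ i, 0 ≤ L i := by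
      intro i; fin_cases i
      · exact hl
      · exact hm
      · exact hn
    have hneg : (Finset.univ.filter (fun i => X i < 0)).Nonempty := by
      by_contra hcon
      rw [Finset.not_nonempty_iff_eq_empty] at hcon
      have hall : ∀ i, 0 ≤ X i := by
        intro i
        by_contra hi
        push Not at hi
        have : i ∈ Finset.univ.filter (fun i => X i < 0) := by simp [hi]
        rw [hcon] at this
        simp at this
      have h0 : 0 ≤ x := hall 0
      have h1 : 0 ≤ y := hall 1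
      have h2 : 0 ≤ z := hall 2
      exact hne ⟨by linarith, by linarith, by linarith⟩
    obtain ⟨i, hi, hmin⟩ := Finset.exists_min_image _ (fun i => L i / (-(X i))) hneg
    simp only [Finset.mem_filter, Finset.mem_univ, true_and] at hi hmin
    set r := L i / (-(X i)) with hr
    have hr0 : 0 ≤ r := div_nonneg (hL i) (by linarith)
    have hge : ∀ j, 0 ≤ L j + r * X j := by
      intro j
      rcases lt_or_ge (X j) 0 with hj | hj
      · have := hmin j hj
        rw [le_div_iff₀ (by linarith)] at this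
        linarith
      · have := mul_nonneg hr0 hj
        have := hL j
        linarith
    have hz : L i + r * X i = 0 := by
      rw [hr]
      have hi' : X i ≠ 0 := hi.ne
      field_simp
      ring
    refine ⟨r, hr0, hge 0, hge 1, hge 2, ?_⟩
    fin_cases i
    · left; exact hz
    · right; left; exact hz
    · right; right; exact hz
  obtain ⟨r, hr, h1, h2, h3, hz⟩ := main l m n (-a - b) a b hl hm hn (by ring) (by
    rintro ⟨-, h1, h2⟩
    exact hab ⟨h1, h2⟩)
  have hcomb : (l + r * (-a - b)) • q1 + (m + r * a) • q2 + (n + r * b) • q3 =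
      -((r * e) • w) := by
    have e1 : (l + r * (-a - b)) • q1 + (m + r * a) • q2 + (n + r * b) • q3 =
        (l • q1 + m • q2 + n • q3) + r • ((-a - b) • q1 + a • q2 + b • q3) := by module
    rw [e1, h, hrel2, zero_add, smul_neg, smul_smul]
  have hs : (l + r * (-a - b)) + (m + r * a) + (n + r * b) = 1 := by
    rw [← hsum]; ring
  refine ⟨r * e, mul_nonneg hr he, ?_⟩
  rcases hz with hz | hz | hz
  · right; left
    rw [hz, zero_smul, zero_add] at hcomb
    exact ⟨_, _, h2, h3, by linarith, hcomb⟩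
  · right; right
    rw [hz, zero_smul, add_zero] at hcomb
    exact ⟨_, _, h1, h3, by linarith, hcomb⟩
  · left
    rw [hz, zero_smul, add_zero] at hcomb
    exact ⟨_, _, h1, h2, by linarith, hcomb⟩

end Pool.Agent.Helper72.Ell
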