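import Pool.Agent.Helper72.Ell.Berge

namespace Pool.Agent.Helper72.Ell

open Real

variable {V : Type*} [NormedAddCommGroup V] [InnerProductSpace ℝ V]

/-- A far point `w` from which every vertex and every side of the triangle looks short
contradicts the position of the origin in the triangle. -/
lemma star_w (hV : Module.finrank ℝ V = 2) {q1 q2 q3 w : V} {l m n : ℝ}
    (hl : 0 ≤ l) (hm : 0 ≤ m) (hn : 0 ≤ n)
    (hsum : l + m + n = 1) (h : l • q1 + m • q2 + n • q3 = 0)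
    (h1 : al * dist q1 w < ‖w‖ + ‖q1‖) (h2 : al * dist q2 w < ‖w‖ + ‖q2‖)
    (h3 : al * dist q3 w < ‖w‖ + ‖q3‖)
    (h12 : al * dist q1 q2 < ‖w‖ + ‖q1‖) (h21 : al * dist q1 q2 < ‖w‖ + ‖q2‖)
    (h23 : al * dist q2 q3 < ‖w‖ + ‖q2‖) (h32 : al * dist q2 q3 < ‖w‖ + ‖q3‖)
    (h13 : al * dist q1 q3 < ‖w‖ + ‖q1‖) (h31 : al * dist q1 q3 < ‖w‖ + ‖q3‖) : False := by
  have hw : w ≠ 0 := by
    rintro rfl
    rw [dist_zero_right, norm_zero, zero_add] at h1
    have := al_gt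
    have : 0 ≤ ‖q1‖ := norm_nonneg _
    nlinarith
  obtain ⟨s, hs, hz | hz | hz⟩ := exit_side hV hl hm hn hsum h hw
  · exact lemmaG hs hz h1 h2 h12 h21
  · exact lemmaG hs hz h2 h3 h23 h32
  · exact lemmaG hs hz h1 h3 h13 h31

lemma mem_hull3 {a b d c : V} (h : c ∈ convexHull ℝ ({a, b, d} : Set V)) :
    ∃ l m n : ℝ, 0 ≤ l ∧ 0 ≤ m ∧ 0 ≤ n ∧ l + m + n = 1 ∧
      l • (a - c) + m • (b - c) + n • (d - c) = 0 := by
  rw [convexHull_insert (by simp), convexHull_pair, mem_convexJoin] at h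
  obtain ⟨x, hx, y, hy, hc⟩ := h
  rw [Set.mem_singleton_iff] at hx
  subst hx
  obtain ⟨t, h0, h1, rfl⟩ := mem_seg hy
  obtain ⟨r, hr0, hr1, hc⟩ := mem_seg hc
  refine ⟨1 - r, r * (1 - t), r * t, by linarith, mul_nonneg hr0 (by linarith),
    mul_nonneg hr0 h0, by ring, ?_⟩
  have e : (1 - r) • (x - c) + (r * (1 - t)) • (b - c) + (r * t) • (d - c) =
      (1 - r) • x + r • ((1 - t) • b + t • d) - c := by module
  rw [e, ← hc, sub_self]

lemma bad_of_ef {p q c : V} (h : 0 < ef p q c) :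
    al * dist (p - c) (q - c) < ‖p - c‖ + ‖q - c‖ := by
  unfold ef at h
  rw [dist_sub_right, ← dist_eq_norm, ← dist_eq_norm, dist_comm p c, dist_comm q c]
  linarith

/-- **Star lemma**: three edges with far ends `q i`. -/
theorem star3 (hV : Module.finrank ℝ V = 2) (p q : Fin 3 → V)
    (h : ∀ i j, i ≠ j → dist (q i) (p j) ≤ dist (p i) (q i) ∧
      dist (q i) (q j) ≤ dist (p i) (q i)) :
    ∃ c, ∀ i, dist c (p i) + dist c (q i) ≤ al * dist (p i) (q i) := by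
  by_contra hcon
  have hno : ∀ c, ¬ (ef (p 0) (q 0) c ≤ 0 ∧ ef (p 1) (q 1) c ≤ 0 ∧ ef (p 2) (q 2) c ≤ 0) := by
    rintro c ⟨h0, h1, h2⟩
    apply hcon
    refine ⟨c, ?_⟩
    unfold ef at h0 h1 h2
    intro i
    fin_cases i
    · show dist c (p 0) + dist c (q 0) ≤ al * dist (p 0) (q 0)
      linarith
    · show dist c (p 1) + dist c (q 1) ≤ al * dist (p 1) (q 1)
      linarith
    · show dist c (p 2) + dist c (q 2) ≤ al * dist (p 2) (q 2)
      linarith
  have pair : ∀ i j, i ≠ j → ∃ z ∈ segment ℝ (q i) (q j), z ∈ El (p i) (q i) ∧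
      z ∈ El (p j) (q j) := by
    intro i j hij
    apply pair_seg (h i j hij).1 (h i j hij).2 (h j i hij.symm).1
    rw [dist_comm]
    exact (h j i hij.symm).2
  obtain ⟨x12, s12, a12, b12⟩ := pair 0 1 (by decide)
  obtain ⟨x13, s13, a13, b13⟩ := pair 0 2 (by decide)
  obtain ⟨x23, s23, a23, b23⟩ := pair 1 2 (by decide)
  obtain ⟨c, hc, f0, f1, f2⟩ := berge_ef ⟨a12, b12⟩ ⟨a13, b13⟩ ⟨a23, b23⟩ hno
  have hsub : convexHull ℝ ({x12, x13, x23} : Set V) ⊆ convexHull ℝ {q 0, q 1, q 2} := by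
    apply convexHull_min _ (convex_convexHull ℝ _)
    have k0 : q 0 ∈ convexHull ℝ ({q 0, q 1, q 2} : Set V) := subset_convexHull ℝ _ (by simp)
    have k1 : q 1 ∈ convexHull ℝ ({q 0, q 1, q 2} : Set V) := subset_convexHull ℝ _ (by simp)
    have k2 : q 2 ∈ convexHull ℝ ({q 0, q 1, q 2} : Set V) := subset_convexHull ℝ _ (by simp)
    rintro x (rfl | rfl | rfl)
    · exact (convex_convexHull ℝ _).segment_subset k0 k1 s12
    · exact (convex_convexHull ℝ _).segment_subset k0 k2 s13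
    · exact (convex_convexHull ℝ _).segment_subset k1 k2 s23
  obtain ⟨l, m, n, hl, hm, hn, hsum, hz⟩ := mem_hull3 (hsub hc)
  have f : ∀ i, 0 < ef (p i) (q i) c := by
    intro i; fin_cases i
    · exact f0
    · exact f1
    · exact f2
  obtain ⟨i0, hi0⟩ := Finite.exists_max (fun i => ‖p i - c‖)
  have hal := al_pos
  have B : ∀ i, al * dist (p i) (q i) < ‖p i0 - c‖ + ‖q i - c‖ := by
    intro i
    have h1 := bad_of_ef (f i)
    rw [dist_sub_right] at h1
    have h2 := hi0 i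
    linarith
  have Hw : ∀ i, al * dist (q i - c) (p i0 - c) < ‖p i0 - c‖ + ‖q i - c‖ := by
    intro i
    rw [dist_sub_right]
    have h1 : dist (q i) (p i0) ≤ dist (p i) (q i) := by
      by_cases hi : i = i0
      · rw [hi, dist_comm]
      · exact (h i i0 hi).1
    have := mul_le_mul_of_nonneg_left h1 hal.le
    have := B i
    linarith
  have HL : ∀ i j, i ≠ j → al * dist (q i - c) (q j - c) < ‖p i0 - c‖ + ‖q i - c‖ := by
    intro i j hij
    rw [dist_sub_right]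
    have := mul_le_mul_of_nonneg_left (h i j hij).2 hal.le
    have := B i
    linarith
  have HR : ∀ i j, i ≠ j → al * dist (q i - c) (q j - c) < ‖p i0 - c‖ + ‖q j - c‖ := by
    intro i j hij
    rw [dist_comm]
    exact HL j i hij.symm
  exact star_w hV hl hm hn hsum hz (Hw 0) (Hw 1) (Hw 2) (HL 0 1 (by decide))
    (HR 0 1 (by decide)) (HL 1 2 (by decide)) (HR 1 2 (by decide)) (HL 0 2 (by decide))
    (HR 0 2 (by decide))

/-- **Pair lemma**, interface form. -/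
theorem pair2 {p1 q1 p2 q2 : V} (h1 : dist q1 p2 ≤ dist p1 q1) (h2 : dist q1 q2 ≤ dist p1 q1)
    (h3 : dist q2 p1 ≤ dist p2 q2) (h4 : dist q2 q1 ≤ dist p2 q2) :
    ∃ c, dist c p1 + dist c q1 ≤ al * dist p1 q1 ∧ dist c p2 + dist c q2 ≤ al * dist p2 q2 := by
  obtain ⟨z, -, hz1, hz2⟩ := pair_seg h1 h2 h3 (by rw [dist_comm]; exact h4)
  have k1 : ef p1 q1 z ≤ 0 := hz1
  have k2 : ef p2 q2 z ≤ 0 := hz2
  unfold ef at k1 k2
  exact ⟨z, by linarith, by linarith⟩

end Pool.Agent.Helper72.Ell
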